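import Pool.Agent.Run7.h11.Q.Ring

set_option autoImplicit false

/-!
The commutative ring attached to a symmetric bilinear form.
-/

namespace Run7.h11.N

open Run7.h11.Q

/-- a symmetric bilinear form -/
structure Qd (W : Type) [AddCommGroup W] [Module F3 W] where
  B : W →ₗ[F3] W →ₗ[F3] F3
  symm : ∀ x y, B x y = B y x

variable {W : Type} [AddCommGroup W] [Module F3 W]

/-- the ring -/
def KB (_q : Qd W) : Type := F3 × W × F3

namespace KB

variable (q : Qd W)

instance : AddCommGroup (KB q) := inferInstanceAs (AddCommGroup (F3 × W × F3))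
instance : Module F3 (KB q) := inferInstanceAs (Module F3 (F3 × W × F3))

/-- components -/
def p0 (a : KB q) : F3 := a.1
/-- components -/
def p1 (a : KB q) : W := a.2.1
/-- components -/
def p2 (a : KB q) : F3 := a.2.2
/-- constructor -/
def mk (x : F3) (w : W) (y : F3) : KB q := (x, w, y)

@[simp] lemma p0_mk (x : F3) (w : W) (y : F3) : p0 q (mk q x w y) = x := rfl
@[simp] lemma p1_mk (x : F3) (w : W) (y : F3) : p1 q (mk q x w y) = w := rfl
@[simp] lemma p2_mk (x : F3) (w : W) (y : F3) : p2 q (mk q x w y) = y := rfl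
@[simp] lemma p0_add (a b : KB q) : p0 q (a + b) = p0 q a + p0 q b := rfl
@[simp] lemma p1_add (a b : KB q) : p1 q (a + b) = p1 q a + p1 q b := rfl
@[simp] lemma p2_add (a b : KB q) : p2 q (a + b) = p2 q a + p2 q b := rfl
@[simp] lemma p0_smul (r : F3) (b : KB q) : p0 q (r • b) = r * p0 q b := rfl
@[simp] lemma p1_smul (r : F3) (b : KB q) : p1 q (r • b) = r • p1 q b := rfl
@[simp] lemma p2_smul (r : F3) (b : KB q) : p2 q (r • b) = r * p2 q b := rfl
@[simp] lemma p0_zero : p0 q 0 = 0 := rfl
@[simp] lemma p1_zero : p1 q 0 = 0 := rfl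
@[simp] lemma p2_zero : p2 q 0 = 0 := rfl

lemma ext' {a b : KB q} (h0 : p0 q a = p0 q b) (h1 : p1 q a = p1 q b) (h2 : p2 q a = p2 q b) :
    a = b := Prod.ext h0 (Prod.ext h1 h2)

instance : Mul (KB q) := ⟨fun a b => mk q (p0 q a * p0 q b)
  (p0 q a • p1 q b + p0 q b • p1 q a)
  (p0 q a * p2 q b + p0 q b * p2 q a + q.B (p1 q a) (p1 q b))⟩

instance : One (KB q) := ⟨mk q 1 0 0⟩

@[simp] lemma p0_mul (a b : KB q) : p0 q (a * b) = p0 q a * p0 q b := rfl
@[simp] lemma p1_mul (a b : KB q) : p1 q (a * b) = p0 q a • p1 q b + p0 q b • p1 q a := rfl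
@[simp] lemma p2_mul (a b : KB q) :
    p2 q (a * b) = p0 q a * p2 q b + p0 q b * p2 q a + q.B (p1 q a) (p1 q b) := rfl
@[simp] lemma p0_one : p0 q 1 = 1 := rfl
@[simp] lemma p1_one : p1 q 1 = 0 := rfl
@[simp] lemma p2_one : p2 q 1 = 0 := rfl

instance : CommRing (KB q) where
  __ := (inferInstance : AddCommGroup (KB q))
  left_distrib a b c := by
    apply ext' <;> simp only [p0_mul, p1_mul, p2_mul, p0_add, p1_add, p2_add, map_add,
      add_smul, smul_add]
    · ring
    · abel
    · ring
  right_distrib a b c := by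
    apply ext' <;> simp only [p0_mul, p1_mul, p2_mul, p0_add, p1_add, p2_add, map_add,
      add_smul, smul_add, LinearMap.add_apply]
    · ring
    · abel
    · ring
  zero_mul a := by
    apply ext' <;> simp
  mul_zero a := by
    apply ext' <;> simp
  mul_assoc a b c := by
    apply ext' <;> simp only [p0_mul, p1_mul, p2_mul, map_add, map_smul, smul_eq_mul,
      add_smul, smul_add, LinearMap.add_apply, LinearMap.smul_apply, smul_smul]
    · ring
    · rw [mul_comm (p0 q c) (p0 q a), mul_comm (p0 q c) (p0 q b)]; abel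
    · ring
  one_mul a := by
    apply ext' <;> simp
  mul_one a := by
    apply ext' <;> simp
  mul_comm a b := by
    apply ext' <;> simp only [p0_mul, p1_mul, p2_mul, q.symm (p1 q a) (p1 q b)]
    · ring
    · abel
    · ring

instance : Algebra F3 (KB q) := Algebra.ofModule
  (by
    intro r a b
    apply ext' <;> simp only [p0_mul, p1_mul, p2_mul, p0_smul, p1_smul, p2_smul, map_smul,
      LinearMap.smul_apply, smul_eq_mul, smul_add, smul_smul]
    · ring
    · rw [mul_comm r (p0 q b)]
    · ring)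
  (by
    intro r a b
    apply ext' <;> simp only [p0_mul, p1_mul, p2_mul, p0_smul, p1_smul, p2_smul, map_smul,
      LinearMap.smul_apply, smul_eq_mul, smul_add, smul_smul]
    · ring
    · rw [mul_comm (p0 q a) r]
    · ring)

/-- the inclusion -/
def inW : W →ₗ[F3] KB q where
  toFun w := mk q 0 w 0
  map_add' a b := by apply ext' <;> simp
  map_smul' r a := by apply ext' <;> simp

@[simp] lemma p0_inW (w : W) : p0 q (inW q w) = 0 := rfl
@[simp] lemma p1_inW (w : W) : p1 q (inW q w) = w := rfl
@[simp] lemma p2_inW (w : W) : p2 q (inW q w) = 0 := rfl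

lemma inW_mul (w w' : W) : inW q w * inW q w' = mk q 0 0 (q.B w w') := by
  apply ext' <;> simp

lemma inW_mul_zero {w w' : W} (h : q.B w w' = 0) : inW q w * inW q w' = 0 := by
  rw [inW_mul, h]; rfl

lemma inW_mul_ne {w w' : W} (h : q.B w w' ≠ 0) : inW q w * inW q w' ≠ 0 := by
  rw [inW_mul]
  intro h0
  apply h
  have := congrArg (p2 q) h0
  simpa using this

lemma inW_mul3 (w w' w'' : W) : inW q w * inW q w' * inW q w'' = 0 := by
  rw [inW_mul]
  apply ext' <;> simp

end KB

end Run7.h11.N
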