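import Pool.Agent.Run7.h11.N.Top
import Pool.Agent.Run7.h11.N.Quad

set_option autoImplicit false

/-!
One-forms modulo exact forms, the Chern-Simons form on them, and the central extension of the
cross product algebra.
-/

namespace Run7.h11.N

open Run7.h11.Q

/-- triples -/
abbrev V3 := RR × RR × RR

lemma eu_smul (w : Ex →+ F3) (r : F3) (x : RR) : eu w (r • x) = r • eu w x :=
  ((eu w).toZModLinearMap 3).map_smul r x

/-- the differential -/
noncomputable def dL : RR →ₗ[F3] V3 where
  toFun r := (e0 r, e1 r, e2 r)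
  map_add' x y := by simp only [map_add, Prod.mk_add_mk]
  map_smul' r x := by simp only [eu_smul, Prod.smul_mk, RingHom.id_apply]

/-- one-forms modulo exact forms -/
abbrev WW := V3 ⧸ (LinearMap.range dL)

/-- the class of a form -/
noncomputable def cls : V3 →ₗ[F3] WW := (LinearMap.range dL).mkQ

lemma cls_dL (r : RR) : cls (dL r) = 0 := by
  rw [cls, Submodule.mkQ_apply, Submodule.Quotient.mk_eq_zero]
  exact ⟨r, rfl⟩

/-- the pairing on forms -/
noncomputable def Qf (k : ℕ) (u v : V3) : F3 :=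
  lam (k + 1) (u.1 * (e1 v.2.2 - e2 v.2.1) + u.2.1 * (e2 v.1 - e0 v.2.2)
    + u.2.2 * (e0 v.2.1 - e1 v.1))

lemma Qf_symm (k : ℕ) (u v : V3) : Qf k u v = Qf k v u := by
  have h : u.1 * (e1 v.2.2 - e2 v.2.1) + u.2.1 * (e2 v.1 - e0 v.2.2)
      + u.2.2 * (e0 v.2.1 - e1 v.1) =
      v.1 * (e1 u.2.2 - e2 u.2.1) + v.2.1 * (e2 u.1 - e0 u.2.2)
      + v.2.2 * (e0 u.2.1 - e1 u.1)
      + (e0 (u.2.2 * v.2.1 - u.2.1 * v.2.2) + e1 (u.1 * v.2.2 - u.2.2 * v.1)
        + e2 (u.2.1 * v.1 - u.1 * v.2.1)) := by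
    simp only [eu_mul, map_sub]; ring
  rw [Qf, Qf, h, map_add, map_add (lam (k + 1)) (e0 _ + e1 _), map_add (lam (k + 1)) (e0 _),
    lam_e0, lam_e1, lam_e2]
  simp

lemma Qf_dL (k : ℕ) (u : V3) (r : RR) : Qf k u (dL r) = 0 := by
  rw [Qf]
  simp only [dL, LinearMap.coe_mk, AddHom.coe_mk, c10, c20, c21, sub_self, mul_zero, add_zero,
    map_zero]

/-- the pairing, bilinear -/
noncomputable def Qb (k : ℕ) : V3 →ₗ[F3] V3 →ₗ[F3] F3 :=
  LinearMap.mk₂ F3 (Qf k)
    (by
      intro u u' v
      rw [Qf, Qf, Qf, ← map_add]; congr 1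
      simp only [Prod.fst_add, Prod.snd_add]; ring)
    (by
      intro r u v
      rw [Qf, Qf, smul_eq_mul, ← lam_smul]; congr 1
      simp only [Prod.smul_fst, Prod.smul_snd, smul_mul_assoc, smul_add])
    (by
      intro u v v'
      rw [Qf, Qf, Qf, ← map_add]; congr 1
      simp only [Prod.fst_add, Prod.snd_add, map_add]; ring)
    (by
      intro r u v
      rw [Qf, Qf, smul_eq_mul, ← lam_smul]; congr 1
      simp only [Prod.smul_fst, Prod.smul_snd, eu_smul, ← smul_sub, mul_smul_comm, smul_add])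

lemma Qb_apply (k : ℕ) (u v : V3) : Qb k u v = Qf k u v := rfl

/-- the form on the quotient -/
noncomputable def qq (k : ℕ) : Qd WW where
  B := (LinearMap.range dL).liftQ
    (((LinearMap.range dL).liftQ (Qb k).flip (by
      rintro _ ⟨r, rfl⟩
      rw [LinearMap.mem_ker]
      refine LinearMap.ext fun u => ?_
      rw [LinearMap.flip_apply, Qb_apply, Qf_dL]; rfl)).flip)
    (by
      rintro _ ⟨r, rfl⟩
      rw [LinearMap.mem_ker]
      refine LinearMap.ext fun u => ?_
      obtain ⟨u, rfl⟩ := Submodule.Quotient.mk_surjective _ u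
      show Qb k (dL r) u = 0
      rw [Qb_apply, Qf_symm, Qf_dL])
  symm := by
    intro x y
    obtain ⟨x, rfl⟩ := Submodule.Quotient.mk_surjective _ x
    obtain ⟨y, rfl⟩ := Submodule.Quotient.mk_surjective _ y
    exact Qf_symm k x y

lemma qq_cls (k : ℕ) (u v : V3) : (qq k).B (cls u) (cls v) = Qf k u v := rfl

/-- the form `s dG` -/
noncomputable def fm (s g : RR) : V3 := (s * e0 g, s * e1 g, s * e2 g)

lemma Qf_fm (k : ℕ) (s g s' g' : RR) :
    Qf k (fm s g) (fm s' g') = lam (k + 1) (s * J g s' g') := by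
  rw [Qf]; congr 1
  simp only [fm, J, eu_mul, c10, c20, c21]
  ring

/-- the cross product -/
noncomputable def cr (a b : V3) : V3 :=
  (a.2.1 * b.2.2 - a.2.2 * b.2.1, a.2.2 * b.1 - a.1 * b.2.2, a.1 * b.2.1 - a.2.1 * b.1)

/-- the dot product -/
noncomputable def dot (a b : V3) : RR := a.1 * b.1 + a.2.1 * b.2.1 + a.2.2 * b.2.2

/-- the cocycle as a form -/
noncomputable def om (a b : V3) : V3 :=
  (a.1 * e0 b.1 + a.2.1 * e0 b.2.1 + a.2.2 * e0 b.2.2,
   a.1 * e1 b.1 + a.2.1 * e1 b.2.1 + a.2.2 * e1 b.2.2,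
   a.1 * e2 b.1 + a.2.1 * e2 b.2.1 + a.2.2 * e2 b.2.2)

lemma v3_ext {a b : V3} (h0 : a.1 = b.1) (h1 : a.2.1 = b.2.1) (h2 : a.2.2 = b.2.2) : a = b :=
  Prod.ext h0 (Prod.ext h1 h2)

lemma om_add_left (a a' b : V3) : om (a + a') b = om a b + om a' b := by
  apply v3_ext <;> simp only [om, Prod.fst_add, Prod.snd_add] <;> ring

lemma om_add_right (a b b' : V3) : om a (b + b') = om a b + om a b' := by
  apply v3_ext <;> simp only [om, Prod.fst_add, Prod.snd_add, map_add] <;> ring

lemma om_self (a : V3) : om a a + om a a = dL (dot a a) := by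
  apply v3_ext <;>
    simp only [om, dL, dot, LinearMap.coe_mk, AddHom.coe_mk, Prod.fst_add, Prod.snd_add, map_add,
      eu_mul] <;> ring

lemma om_coc (a b c : V3) : om a (cr b c) = om (cr a b) c + om b (cr a c) + dL (dot c (cr a b)) := by
  apply v3_ext <;>
    simp only [om, dL, dot, cr, LinearMap.coe_mk, AddHom.coe_mk, Prod.fst_add, Prod.snd_add,
      map_add, map_sub, eu_mul] <;> ring

lemma om_smul (r : F3) (a b : V3) : om a (r • b) = r • om a b := by
  apply v3_ext <;> simp only [om, Prod.smul_fst, Prod.smul_snd, eu_smul, mul_smul_comm, smul_add]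

lemma om_smul_left (r : F3) (a b : V3) : om (r • a) b = r • om a b := by
  apply v3_ext <;> simp only [om, Prod.smul_fst, Prod.smul_snd, smul_mul_assoc, smul_add]

lemma cls_om_self (a : V3) : cls (om a a) = 0 := by
  have h := cls_dL (dot a a)
  rw [← om_self, map_add] at h
  have h3 : (3 : F3) • cls (om a a) = 0 := by
    rw [show (3 : F3) = 0 by decide, zero_smul]
  have h4 : (3 : F3) • cls (om a a) = (cls (om a a) + cls (om a a)) + cls (om a a) := by
    rw [show (3 : F3) = 1 + 1 + 1 by decide, add_smul, add_smul, one_smul]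
  rw [h4, h, zero_add] at h3
  exact h3

/-- the central extension -/
def EE : Type := V3 × WW

namespace EE

noncomputable instance : AddCommGroup EE := inferInstanceAs (AddCommGroup (V3 × WW))
noncomputable instance : Module F3 EE := inferInstanceAs (Module F3 (V3 × WW))

/-- constructor -/
def mk (a : V3) (w : WW) : EE := (a, w)
/-- vector part -/
def h (a : EE) : V3 := a.1
/-- central part -/
def c (a : EE) : WW := a.2

@[simp] lemma h_mk (a : V3) (w : WW) : h (mk a w) = a := rfl
@[simp] lemma c_mk (a : V3) (w : WW) : c (mk a w) = w := rfl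
@[simp] lemma h_add (a b : EE) : h (a + b) = h a + h b := rfl
@[simp] lemma c_add (a b : EE) : c (a + b) = c a + c b := rfl
@[simp] lemma h_zero : h 0 = 0 := rfl
@[simp] lemma c_zero : c 0 = 0 := rfl
@[simp] lemma h_smul (r : F3) (b : EE) : h (r • b) = r • h b := rfl
@[simp] lemma c_smul (r : F3) (b : EE) : c (r • b) = r • c b := rfl

lemma ext' {a b : EE} (h1 : h a = h b) (h2 : c a = c b) : a = b := Prod.ext h1 h2

noncomputable instance : Bracket EE EE :=
  ⟨fun a b => mk (cr (h a) (h b)) (- cls (om (h a) (h b)))⟩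

@[simp] lemma h_br (a b : EE) : h ⁅a, b⁆ = cr (h a) (h b) := rfl
@[simp] lemma c_br (a b : EE) : c ⁅a, b⁆ = - cls (om (h a) (h b)) := rfl

noncomputable instance : LieRing EE where
  add_lie a b e := by
    apply ext'
    · apply v3_ext <;> simp only [h_br, h_add, cr, Prod.fst_add, Prod.snd_add] <;> ring
    · simp only [c_br, c_add, h_add, om_add_left, map_add, neg_add]
  lie_add a b e := by
    apply ext'
    · apply v3_ext <;> simp only [h_br, h_add, cr, Prod.fst_add, Prod.snd_add] <;> ring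
    · simp only [c_br, c_add, h_add, om_add_right, map_add, neg_add]
  lie_self a := by
    apply ext'
    · apply v3_ext <;> simp only [h_br, h_zero, cr, Prod.fst_zero, Prod.snd_zero] <;> ring
    · simp only [c_br, cls_om_self, neg_zero, c_zero]
  leibniz_lie a b e := by
    apply ext'
    · apply v3_ext <;> simp only [h_br, h_add, cr, Prod.fst_add, Prod.snd_add] <;> ring
    · simp only [c_br, h_br, c_add, om_coc (h a) (h b) (h e), map_add, cls_dL, add_zero, neg_add]

noncomputable instance : LieAlgebra F3 EE where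
  lie_smul r a b := by
    apply ext'
    · apply v3_ext <;>
        simp only [h_br, h_smul, cr, Prod.smul_fst, Prod.smul_snd, mul_smul_comm, smul_sub]
    · simp only [c_br, c_smul, h_smul, om_smul, map_smul, smul_neg]

/-- the inclusion of the centre -/
noncomputable def io : WW →ₗ[F3] EE where
  toFun w := mk 0 w
  map_add' x y := by apply ext' <;> simp
  map_smul' r x := by apply ext' <;> simp

lemma h_io (w : WW) : h (io w) = 0 := rfl
lemma c_io (w : WW) : c (io w) = w := rfl

lemma io_inj : Function.Injective io := by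
  intro x y hxy
  exact congrArg c hxy

lemma cr_zero (a : V3) : cr 0 a = 0 := by
  apply v3_ext <;> simp [cr]

lemma om_zero (a : V3) : om 0 a = 0 := by
  apply v3_ext <;> simp [om]

lemma io_central (w : WW) (x : EE) : ⁅io w, x⁆ = 0 := by
  apply ext'
  · rw [h_br, h_io, cr_zero]; rfl
  · rw [c_br, h_io, om_zero, map_zero, neg_zero]; rfl

lemma eq_io {x : EE} (hx : h x = 0) : x = io (c x) := by
  apply ext'
  · rw [hx, h_io]
  · rw [c_io]

end EE

end Run7.h11.N
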