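import Pool.Agent.Run7.h11.N.Sep

set_option autoImplicit false

/-!
The final assembly: the identity `Ew` defines a variety of Lie algebras over the field with three
elements whose identities in two variables have no finite basis.

Sketch of the proof.  Characteristic three, `R = 𝔽₃[X, Y, Z]`.
* (`Alg`) `E` is the central extension of the cross product algebra `so₃(R)` by `W = Ω¹/dR`
  (logarithmic forms) with the cocycle `-u · dv`.  For `k ≥ 0` the functional `λ` (`Top`) takes the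
  coefficient of `X^q Y^q Z^(2q)`, `q = 3^(k+1)`, of a form of top degree; it kills exact forms,
  so `Q(ω, η) = λ(ω ∧ dη)` is a symmetric bilinear form on `W` (Chern-Simons).
* (`Quad`, `Mod`) `K = 𝔽₃ ⊕ W ⊕ 𝔽₃` with the product `w w' = Q(w, w')`.  The Poincaré-Birkhoff-Witt
  representation of `E`, divided by the relations `w w' = 0` for `Q(w, w') = 0` and
  `w w' w'' = 0`, is a module on which `W` acts through `K`, and on which enough is nonzero.  The model
  `A_k` is the semidirect product.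
* (`Word`) In characteristic three `(b · c)[v, y]` is a Lie polynomial in `so₃`; the word
  `Tw b₁ b₂ c₁ c₂ g₁ g₂` takes in `E` the central value `-s dG` with `s = [b₁,b₂] · [c₁,c₂]`,
  `G = g₁ · g₂`; the identity is `Ew = [[[y, T], T'], T'']` with three such words.  Its value in `A_k`
  is zero when `Q` of the last two charges is zero.
* (`Unif`, `Poly`, `Top`) For words in two variables `a`, `b` the scalars `s`, `G` are polynomials
  in the three scalars `a · a`, `a · b`, `b · b`, so `Q` is `λ(h(t) dt₁ dt₂ dt₃)` with a fixed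
  polynomial `h`: by the Cartier operator, `C(g³ (t₁t₂t₃)² dt₁dt₂dt₃) = g dt₁dt₂dt₃`, this is zero
  for all `t` when `k` is large.  So every identity in two variables of the variety holds
  in `A_k` for all large `k`.
* (`Sep`) But for every `k` a consequence in two variables of `Ew`, with
  `s = (t₁t₂t₃)^(q-2) (t₁t₃ - t₂²)`, fails in `A_k`.
* (this file) Reduced product of the `A_k`: the identities in two variables are not finitely based.
-/

namespace Run7.h11.N

open Run7.h11.Q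

/-- the identity -/
noncomputable def eid : FreeLieAlgebra F3 ℕ := Ew (FreeLieAlgebra.of F3)

lemma lift_eid {A : Type} [LieRing A] [LieAlgebra F3 A] (φ : ℕ → A) :
    FreeLieAlgebra.lift F3 φ eid = Ew φ := by
  rw [eid, Ew_map]
  congr 1
  funext i
  exact FreeLieAlgebra.lift_of_apply _ _

/-- the inclusion of the free algebra of rank two -/
noncomputable abbrev inc2 : FreeLieAlgebra F3 (Fin 2) →ₗ⁅F3⁆ FreeLieAlgebra F3 ℕ :=
  FreeLieAlgebra.lift F3 (fun i : Fin 2 => FreeLieAlgebra.of F3 (i : ℕ))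

lemma lift_inc2 {A : Type} [LieRing A] [LieAlgebra F3 A] (φ : ℕ → A)
    (x : FreeLieAlgebra F3 (Fin 2)) :
    FreeLieAlgebra.lift F3 φ (inc2 x) = FreeLieAlgebra.lift F3 (fun i : Fin 2 => φ i) x := by
  have h : (FreeLieAlgebra.lift F3 φ).comp inc2 =
      FreeLieAlgebra.lift F3 (fun i : Fin 2 => φ i) := by
    apply FreeLieAlgebra.hom_ext
    intro i
    simp
  exact LieHom.congr_fun h x

/-- validity in the variety -/
def InV (g : FreeLieAlgebra F3 ℕ) : Prop :=
  ∀ (M : Type) [LieRing M] [LieAlgebra F3 M],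
    (∀ ψ : ℕ → M, FreeLieAlgebra.lift F3 ψ eid = 0) → ∀ ψ : ℕ → M, FreeLieAlgebra.lift F3 ψ g = 0

/-- the projection on a quotient -/
def mkL {L : Type} [LieRing L] [LieAlgebra F3 L] (I : LieIdeal F3 L) : L →ₗ⁅F3⁆ (L ⧸ I) where
  toLinearMap := (LieSubmodule.Quotient.mk' I : L →ₗ⁅F3, L⁆ (L ⧸ I)).toLinearMap
  map_lie' := by
    intro x y
    exact LieSubmodule.Quotient.mk_bracket I x y

lemma mkL_eq_zero {L : Type} [LieRing L] [LieAlgebra F3 L] (I : LieIdeal F3 L) (x : L) :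
    mkL I x = 0 ↔ x ∈ I := by
  have h : mkL I x = LieSubmodule.Quotient.mk' I x := rfl
  rw [h]
  exact LieSubmodule.Quotient.mk_eq_zero I

lemma mkL_surj {L : Type} [LieRing L] [LieAlgebra F3 L] (I : LieIdeal F3 L) :
    Function.Surjective (mkL I) := by
  intro x
  obtain ⟨y, hy⟩ := LieSubmodule.Quotient.surjective_mk' I x
  exact ⟨y, hy⟩

/-- the ideal of the consequences -/
noncomputable def II : LieIdeal F3 (FreeLieAlgebra F3 (Fin 2)) :=
  LieSubmodule.lieSpan F3 (FreeLieAlgebra F3 (Fin 2)) {x | ∃ ψ, x = Ew ψ}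

lemma mem_II {x : FreeLieAlgebra F3 (Fin 2)} (hx : InV (inc2 x)) : x ∈ II := by
  let mk : FreeLieAlgebra F3 (Fin 2) →ₗ⁅F3⁆ (FreeLieAlgebra F3 (Fin 2) ⧸ II) := mkL II
  have hmk : ∀ y, mk y = 0 ↔ y ∈ II := fun y => mkL_eq_zero II y
  have hsurj : Function.Surjective mk := mkL_surj II
  have h1 : ∀ ψ : ℕ → (FreeLieAlgebra F3 (Fin 2) ⧸ II), FreeLieAlgebra.lift F3 ψ eid = 0 := by
    intro ψ
    rw [lift_eid]
    choose ψ' hψ' using fun i => hsurj (ψ i)
    have : ψ = fun i => mk (ψ' i) := funext fun i => (hψ' i).symm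
    rw [this, ← Ew_map, hmk]
    exact LieSubmodule.subset_lieSpan ⟨ψ', rfl⟩
  have h2 := hx _ h1 (fun i => mk (if h : i < 2 then FreeLieAlgebra.of F3 ⟨i, h⟩ else 0))
  rw [lift_inc2] at h2
  have h3 : FreeLieAlgebra.lift F3 (fun i : Fin 2 => mk (if h : (i : ℕ) < 2 then
      FreeLieAlgebra.of F3 ⟨i, h⟩ else 0)) = mk := by
    apply FreeLieAlgebra.hom_ext
    intro i
    rw [FreeLieAlgebra.lift_of_apply, dif_pos i.isLt]
  rw [h3, hmk] at h2
  exact h2

section Models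

variable (A : ℕ → Type) [∀ k, LieRing (A k)] [∀ k, LieAlgebra F3 (A k)]

/-- identities valid in the late algebras -/
def NN : LieIdeal F3 (FreeLieAlgebra F3 (Fin 2)) where
  carrier := {x | ∃ k0 : ℕ, ∀ k, k0 ≤ k → ∀ φ : Fin 2 → A k, FreeLieAlgebra.lift F3 φ x = 0}
  add_mem' := by
    rintro x y ⟨k1, h1⟩ ⟨k2, h2⟩
    refine ⟨max k1 k2, fun k hk φ => ?_⟩
    rw [map_add, h1 k (le_trans (le_max_left _ _) hk), h2 k (le_trans (le_max_right _ _) hk),
      add_zero]
  zero_mem' := ⟨0, fun k _ φ => map_zero _⟩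
  smul_mem' := by
    rintro r x ⟨k1, h1⟩
    refine ⟨k1, fun k hk φ => ?_⟩
    rw [map_smul, h1 k hk, smul_zero]
  lie_mem := by
    rintro x y ⟨k1, h1⟩
    refine ⟨k1, fun k hk φ => ?_⟩
    rw [LieHom.map_lie, h1 k hk, lie_zero]

instance piBr : Bracket (∀ k, A k) (∀ k, A k) := ⟨fun x y k => ⁅x k, y k⁆⟩

lemma pi_lie (x y : ∀ k, A k) (k : ℕ) : ⁅x, y⁆ k = ⁅x k, y k⁆ := rfl

instance piLR : LieRing (∀ k, A k) where
  add_lie x y z := by funext k; simp only [pi_lie, Pi.add_apply, add_lie]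
  lie_add x y z := by funext k; simp only [pi_lie, Pi.add_apply, lie_add]
  lie_self x := by funext k; simp only [pi_lie, lie_self, Pi.zero_apply]
  leibniz_lie x y z := by
    funext k; simp only [pi_lie, Pi.add_apply]; exact leibniz_lie _ _ _

instance piLA : LieAlgebra F3 (∀ k, A k) where
  lie_smul r x y := by funext k; simp only [pi_lie, Pi.smul_apply, lie_smul]

/-- the evaluation -/
def piEv (k : ℕ) : (∀ k, A k) →ₗ⁅F3⁆ A k where
  toFun x := x k
  map_add' _ _ := rfl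
  map_smul' _ _ := rfl
  map_lie' := rfl

/-- eventually zero families -/
def ZZ : LieIdeal F3 (∀ k, A k) where
  carrier := {x | ∃ k0 : ℕ, ∀ k, k0 ≤ k → x k = 0}
  add_mem' := by
    rintro x y ⟨k1, h1⟩ ⟨k2, h2⟩
    refine ⟨max k1 k2, fun k hk => ?_⟩
    rw [Pi.add_apply, h1 k (le_trans (le_max_left _ _) hk), h2 k (le_trans (le_max_right _ _) hk),
      add_zero]
  zero_mem' := ⟨0, fun k _ => rfl⟩
  smul_mem' := by
    rintro r x ⟨k1, h1⟩
    refine ⟨k1, fun k hk => ?_⟩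
    rw [Pi.smul_apply, h1 k hk, smul_zero]
  lie_mem := by
    rintro x y ⟨k1, h1⟩
    refine ⟨k1, fun k hk => ?_⟩
    rw [pi_lie, h1 k hk, lie_zero]

lemma lift_pi (φ : ℕ → ∀ k, A k) (g : FreeLieAlgebra F3 ℕ) (k : ℕ) :
    FreeLieAlgebra.lift F3 φ g k = FreeLieAlgebra.lift F3 (fun i => φ i k) g := by
  have h : (piEv A k).comp (FreeLieAlgebra.lift F3 φ) =
      FreeLieAlgebra.lift F3 (fun i => φ i k) := by
    apply FreeLieAlgebra.hom_ext
    intro i
    rw [LieHom.comp_apply, FreeLieAlgebra.lift_of_apply, FreeLieAlgebra.lift_of_apply]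
    rfl
  exact LieHom.congr_fun h g

/-- the reduced product -/
lemma reduced (g : FreeLieAlgebra F3 ℕ) :
    (∀ φ : ℕ → ((∀ k, A k) ⧸ ZZ A), FreeLieAlgebra.lift F3 φ g = 0) ↔
      ∃ k0 : ℕ, ∀ k, k0 ≤ k → ∀ φ : ℕ → A k, FreeLieAlgebra.lift F3 φ g = 0 := by
  classical
  let mk : (∀ k, A k) →ₗ⁅F3⁆ ((∀ k, A k) ⧸ ZZ A) := mkL (ZZ A)
  have hmk : ∀ y, mk y = 0 ↔ y ∈ ZZ A := fun y => mkL_eq_zero (ZZ A) y
  have hsurj : Function.Surjective mk := mkL_surj (ZZ A)
  have hl : ∀ (φ : ℕ → ∀ k, A k), FreeLieAlgebra.lift F3 (fun i => mk (φ i)) g =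
      mk (FreeLieAlgebra.lift F3 φ g) := by
    intro φ
    have h : mk.comp (FreeLieAlgebra.lift F3 φ) = FreeLieAlgebra.lift F3 (fun i => mk (φ i)) := by
      apply FreeLieAlgebra.hom_ext
      intro i
      simp
    exact (LieHom.congr_fun h g).symm
  constructor
  · intro h
    by_contra hc
    push Not at hc
    let φ : ℕ → ∀ k, A k := fun i k =>
      if h : ∃ φ : ℕ → A k, FreeLieAlgebra.lift F3 φ g ≠ 0 then h.choose i else 0
    have h1 := h (fun i => mk (φ i))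
    rw [hl, hmk] at h1
    obtain ⟨k0, hk0⟩ := h1
    obtain ⟨k, hk, φ', hφ'⟩ := hc k0
    have h2 := hk0 k hk
    rw [lift_pi] at h2
    have h3 : ∃ φ : ℕ → A k, FreeLieAlgebra.lift F3 φ g ≠ 0 := ⟨φ', hφ'⟩
    have h4 : (fun i => φ i k) = h3.choose := by
      funext i
      simp only [φ]
      rw [dif_pos h3]
    rw [h4] at h2
    exact h3.choose_spec h2
  · rintro ⟨k0, h⟩ φ
    choose φ' hφ' using fun i => hsurj (φ i)
    have : φ = fun i => mk (φ' i) := funext fun i => (hφ' i).symm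
    rw [this, hl, hmk]
    refine ⟨k0, fun k hk => ?_⟩
    rw [lift_pi]
    exact h k hk _

end Models

theorem main (T : Finset (FreeLieAlgebra F3 ℕ))
    (hT : ∀ (L : Type) [LieRing L] [LieAlgebra F3 L],
      (∀ g ∈ T, ∀ φ : ℕ → L, FreeLieAlgebra.lift F3 φ g = 0) ↔
        (∀ g ∈ Set.range (⇑inc2), InV g → ∀ φ : ℕ → L, FreeLieAlgebra.lift F3 φ g = 0)) :
    False := by
  choose M a b hab using exists_bad
  let A : ℕ → Type := fun k => SD (M k).R
  letI : ∀ k, LieRing (A k) := fun k => inferInstanceAs (LieRing (SD (M k).R))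
  letI : ∀ k, LieAlgebra F3 (A k) := fun k => inferInstanceAs (LieAlgebra F3 (SD (M k).R))
  have hN : II ≤ NN A := by
    rw [II, LieSubmodule.lieSpan_le]
    rintro x ⟨ψ, rfl⟩
    obtain ⟨k0, hk0⟩ := van_Ew ψ
    exact ⟨k0, fun k hk φ => hk0 k hk (M k) φ⟩
  have h1 : ∀ g ∈ Set.range (⇑inc2), InV g → ∀ φ : ℕ → ((∀ k, A k) ⧸ ZZ A),
      FreeLieAlgebra.lift F3 φ g = 0 := by
    rintro g ⟨x, rfl⟩ hg
    rw [reduced]
    obtain ⟨k0, hk0⟩ := hN (mem_II hg)
    refine ⟨k0, fun k hk φ => ?_⟩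
    rw [lift_inc2]
    exact hk0 k hk _
  have h2 := (hT ((∀ k, A k) ⧸ ZZ A)).2 h1
  have h3 : ∀ g ∈ T, ∃ k0 : ℕ, ∀ k, k0 ≤ k → ∀ φ : ℕ → A k, FreeLieAlgebra.lift F3 φ g = 0 :=
    fun g hg => (reduced A g).1 (h2 g hg)
  have h4 : ∃ k0 : ℕ, ∀ g ∈ T, ∀ k, k0 ≤ k → ∀ φ : ℕ → A k, FreeLieAlgebra.lift F3 φ g = 0 := by
    choose! kk hkk using h3
    refine ⟨T.sup kk, fun g hg k hk => hkk g hg k (le_trans (Finset.le_sup hg) hk)⟩
  obtain ⟨k, hk⟩ := h4
  have h5 := (hT (A k)).1 (fun g hg => hk g hg k le_rfl)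
  have h6 := h5 (inc2 (Eu (3 ^ (k + 1) - 3) (FreeLieAlgebra.of F3 0) (FreeLieAlgebra.of F3 1)))
    ⟨_, rfl⟩ (by
      intro M' _ _ hM ψ
      rw [lift_inc2, Eu_map, ← Ew_xU, ← lift_eid]
      exact hM _) (fun i => if i = 0 then a k else b k)
  rw [lift_inc2, Eu_map, FreeLieAlgebra.lift_of_apply, FreeLieAlgebra.lift_of_apply] at h6
  exact hab k h6

end Run7.h11.N
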