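import Pool.Agent.W5h64.PBW
import Pool.Agent.Run7.h11.N.Quad

set_option autoImplicit false

/-!
A module of a Lie algebra with a large centre on which the centre acts through the ring of a
symmetric bilinear form: a quotient of the representation of Poincaré, Birkhoff and Witt.
-/

namespace Run7.h11.N

open Run7.h11.Q MvPolynomial Pool.Agent.W5h64.PBW

lemma ext_basis {K ι V : Type} [Field K] [AddCommGroup V] [Module K V] {v : ι → V}
    (hv : LinearIndependent K v) :
    ∃ (J : Type) (b : Module.Basis (ι ⊕ J) K V), ∀ i, b (Sum.inl i) = v i := by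
  obtain ⟨S', hS'⟩ := Submodule.exists_isCompl (Submodule.span K (Set.range v))
  refine ⟨_, ((Module.Basis.span hv).prod (Module.Basis.ofVectorSpace K S')).map
    (Submodule.prodEquivOfIsCompl _ _ hS'), ?_⟩
  intro i
  simp [Module.Basis.span_apply]

/-- a linear order refining a rank -/
@[instance_reducible] noncomputable def rankOrder {I : Type} (r : I → ℕ) : LinearOrder I :=
  letI : LinearOrder I := IsWellOrder.linearOrder (WellOrderingRel (α := I))
  LinearOrder.lift' (fun i => (toLex (r i, i) : ℕ ×ₗ I)) (by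
    intro i j h
    have := toLex.injective h
    exact (Prod.ext_iff.1 this).2)

lemma rankOrder_lt {I : Type} (r : I → ℕ) {i j : I} (h : r i < r j) :
    (rankOrder r).lt i j := by
  letI : LinearOrder I := IsWellOrder.linearOrder (WellOrderingRel (α := I))
  show (toLex (r i, i) : ℕ ×ₗ I) < toLex (r j, j)
  rw [Prod.Lex.toLex_lt_toLex]
  exact Or.inl h

lemma rankOrder_le {I : Type} (r : I → ℕ) {i j : I} (h : (rankOrder r).le i j) : r i ≤ r j := by
  by_contra hc
  have h2 := rankOrder_lt r (not_le.1 hc)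
  exact absurd h ((rankOrder r).lt_iff_le_not_ge _ _ |>.1 h2).2

section PBW

variable {L : Type} [LieRing L] [LieAlgebra F3 L] {W : Type} [AddCommGroup W] [Module F3 W]
  (io : W →ₗ[F3] L) {I : Type} [LinearOrder I] (b : Module.Basis I F3 L)

/-- a central element acts by multiplication -/
lemma central_mo (hc : ∀ (w : W) (x : L), ⁅io w, x⁆ = 0) (n : ℕ) : ∀ (i : I) (m : I →₀ ℕ), dg m = n → (∃ w, b i = io w) →
    rho b (b i) (mo F3 m) = X i * mo F3 m := by
  induction n using Nat.strong_induction_on with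
  | _ n ih =>
    intro i m hm hi
    rcases dec i m with h | ⟨j, m', rfl, hji, hj⟩
    · exact rho_le b h
    · obtain ⟨w, hw⟩ := hi
      have h0 : ⁅b i, b j⁆ = 0 := by rw [hw, hc]
      rw [rho_lt b hj hji, h0, map_zero, LinearMap.zero_apply, add_zero]
      rw [dg_add] at hm
      rw [ih (dg m') (by omega) i m' rfl ⟨w, hw⟩, sub_self, map_zero, add_zero]

lemma central_all (hc : ∀ (w : W) (x : L), ⁅io w, x⁆ = 0) (i : I) (hi : ∃ w, b i = io w) (p : MvPolynomial I F3) :
    rho b (b i) p = X i * p := by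
  have h := lin_ext (rho b (b i)) (LinearMap.mulLeft F3 (X i)) p.totalDegree
    (fun m _ => by
      rw [LinearMap.mulLeft_apply]
      exact central_mo io b hc (dg m) i m rfl hi) p le_rfl
  rw [h, LinearMap.mulLeft_apply]

/-- the linear forms -/
noncomputable def li : W →ₗ[F3] MvPolynomial I F3 where
  toFun w := rho b (io w) 1
  map_add' x y := by rw [map_add, map_add, LinearMap.add_apply]
  map_smul' r x := by rw [map_smul, map_smul, LinearMap.smul_apply, RingHom.id_apply]

lemma li_spec {J1 : Type} (bW : Module.Basis J1 F3 W) (f : J1 → I)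
    (hf : ∀ j, b (f j) = io (bW j)) (hc : ∀ (w : W) (x : L), ⁅io w, x⁆ = 0) (w : W)
    (p : MvPolynomial I F3) : rho b (io w) p = li io b w * p := by
  have h : (LinearMap.applyₗ p).comp ((rho b).comp io) =
      (LinearMap.mulRight F3 p).comp (li io b) := by
    apply bW.ext
    intro j
    show rho b (io (bW j)) p = rho b (io (bW j)) 1 * p
    rw [← hf, central_all io b hc _ ⟨_, hf j⟩, central_all io b hc _ ⟨_, hf j⟩, mul_one]
  exact LinearMap.congr_fun h w

lemma li_basis {J1 : Type} (bW : Module.Basis J1 F3 W) (f : J1 → I)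
    (hf : ∀ j, b (f j) = io (bW j)) (hc : ∀ (w : W) (x : L), ⁅io w, x⁆ = 0) (j : J1) :
    li io b (bW j) = X (f j) := by
  show rho b (io (bW j)) 1 = _
  rw [← hf, central_all io b hc _ ⟨_, hf j⟩, mul_one]

variable (q : Qd W)

/-- the relations -/
def rel : Set (MvPolynomial I F3) :=
  {p | (∃ w w', q.B w w' = 0 ∧ p = li io b w * li io b w') ∨
    ∃ w w' w'', p = li io b w * li io b w' * li io b w''}

/-- the ideal -/
noncomputable def JJ : Ideal (MvPolynomial I F3) := Ideal.span (rel io b q)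

lemma JJ_stable (hsp : ∀ w p, rho b (io w) p = li io b w * p) (hc : ∀ (w : W) (x : L), ⁅io w, x⁆ = 0)
    (p : MvPolynomial I F3) (hp : p ∈ JJ io b q) (x : L) : rho b x p ∈ JJ io b q := by
  have hcomm : ∀ w v, rho b x (li io b w * v) = li io b w * rho b x v := by
    intro w v
    have h := commute_ops b (io w) x v
    rw [hc, map_zero, LinearMap.zero_apply, hsp, hsp] at h
    exact (sub_eq_zero.1 h.symm).symm
  have key : ∀ v, rho b x (v * p) ∈ JJ io b q := by
    refine Submodule.span_induction (p := fun p _ => ∀ v, rho b x (v * p) ∈ JJ io b q)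
      ?_ ?_ ?_ ?_ hp
    · rintro p (⟨w, w', h, rfl⟩ | ⟨w, w', w'', rfl⟩) v
      · have h1 : v * (li io b w * li io b w') = li io b w * (li io b w' * v) := by ring
        rw [h1, hcomm, hcomm]
        have h2 : li io b w * (li io b w' * rho b x v) =
            rho b x v * (li io b w * li io b w') := by ring
        rw [h2]
        exact Ideal.mul_mem_left _ _ (Ideal.subset_span (Or.inl ⟨w, w', h, rfl⟩))
      · have h1 : v * (li io b w * li io b w' * li io b w'') =
            li io b w * (li io b w' * (li io b w'' * v)) := by ring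
        rw [h1, hcomm, hcomm, hcomm]
        have h2 : li io b w * (li io b w' * (li io b w'' * rho b x v)) =
            rho b x v * (li io b w * li io b w' * li io b w'') := by ring
        rw [h2]
        exact Ideal.mul_mem_left _ _ (Ideal.subset_span (Or.inr ⟨w, w', w'', rfl⟩))
    · intro v; rw [mul_zero, map_zero]; exact Submodule.zero_mem _
    · intro p p' _ _ h h' v
      rw [mul_add, map_add]
      exact Submodule.add_mem _ (h v) (h' v)
    · intro a p _ h v
      rw [smul_eq_mul, ← mul_assoc]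
      exact h _
  have := key 1
  rwa [one_mul] at this

end PBW

/-- the module -/
theorem exists_mod {L : Type} [LieRing L] [LieAlgebra F3 L] {W : Type} [AddCommGroup W]
    [Module F3 W] (io : W →ₗ[F3] L) (hio : Function.Injective io) (hc : ∀ (w : W) (x : L), ⁅io w, x⁆ = 0)
    (g : Fin 3 → L) (hg : ∀ (w : W) (c : Fin 3 → F3), io w = ∑ i, c i • g i → c = 0)
    (q : Qd W) :
    ∃ (V : Type) (_ : AddCommGroup V) (_ : Module F3 V) (ρ : L →ₗ[F3] Module.End F3 V) (u : V),
      (∀ x y v, ρ ⁅x, y⁆ v = ρ x (ρ y v) - ρ y (ρ x v)) ∧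
      (∀ w w', q.B w w' = 0 → ∀ v, ρ (io w) (ρ (io w') v) = 0) ∧
      (∀ w w' w'' v, ρ (io w) (ρ (io w') (ρ (io w'') v)) = 0) ∧
      (∀ w w', q.B w w' ≠ 0 → ρ (io w) (ρ (io w') (ρ (g 0) (ρ (g 0) (ρ (g 2) (ρ (g 2)
        (ρ (g 2) u))) - ρ (g 1) (ρ (g 2) u)))) ≠ 0) := by
  classical
  set bW := Module.Basis.ofVectorSpace F3 W with hbW
  have hli : LinearIndependent F3 (Sum.elim (fun j => io (bW j)) g) := by
    apply LinearIndependent.sum_type
    · exact bW.linearIndependent.map' io (LinearMap.ker_eq_bot.2 hio)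
    · rw [Fintype.linearIndependent_iff]
      intro c h i
      have := hg 0 c (by rw [map_zero, h])
      rw [this]; rfl
    · rw [Submodule.disjoint_def]
      intro x hx hx'
      have h1 : x ∈ LinearMap.range io := by
        have h2 : Submodule.span F3 (Set.range fun j => io (bW j)) ≤ LinearMap.range io := by
          rw [Submodule.span_le]
          rintro _ ⟨j, rfl⟩
          exact ⟨_, rfl⟩
        exact h2 hx
      obtain ⟨w, rfl⟩ := h1
      obtain ⟨c, hcc⟩ := (Submodule.mem_span_range_iff_exists_fun F3).1 hx'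
      have := hg w c hcc.symm
      rw [← hcc, this]
      simp
  obtain ⟨J2, b, hb⟩ := ext_basis hli
  set r : (Module.Basis.ofVectorSpaceIndex F3 W ⊕ Fin 3) ⊕ J2 → ℕ :=
    Sum.elim (Sum.elim (fun _ => 0) (fun k => k.val + 1)) (fun _ => 4) with hr
  letI : LinearOrder ((Module.Basis.ofVectorSpaceIndex F3 W ⊕ Fin 3) ⊕ J2) := rankOrder r
  have hf : ∀ j, b (Sum.inl (Sum.inl j)) = io (bW j) := fun j => hb _
  have hsp := li_spec io b bW (fun j => Sum.inl (Sum.inl j)) hf hc
  have hlb := li_basis io b bW (fun j => Sum.inl (Sum.inl j)) hf hc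
  set N := (JJ io b q).restrictScalars F3 with hN
  have hst : ∀ x, N ≤ N.comap (rho b x) := fun x p hp => JJ_stable io b q hsp hc p hp x
  let ρ : L →ₗ[F3] Module.End F3 (MvPolynomial _ F3 ⧸ N) :=
    { toFun := fun x => N.mapQ N (rho b x) (hst x)
      map_add' := by
        intro x y
        refine LinearMap.ext fun v => ?_
        obtain ⟨v, rfl⟩ := Submodule.Quotient.mk_surjective _ v
        simp only [Submodule.mapQ_apply, map_add, LinearMap.add_apply, Submodule.Quotient.mk_add]
      map_smul' := by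
        intro s x
        refine LinearMap.ext fun v => ?_
        obtain ⟨v, rfl⟩ := Submodule.Quotient.mk_surjective _ v
        simp only [Submodule.mapQ_apply, map_smul, LinearMap.smul_apply,
          Submodule.Quotient.mk_smul, RingHom.id_apply] }
  have hρ : ∀ x v, ρ x (Submodule.Quotient.mk v) = Submodule.Quotient.mk (rho b x v) :=
    fun x v => rfl
  refine ⟨MvPolynomial _ F3 ⧸ N, inferInstance, inferInstance, ρ, Submodule.Quotient.mk 1,
    ?_, ?_, ?_, ?_⟩
  · intro x y v
    obtain ⟨v, rfl⟩ := Submodule.Quotient.mk_surjective _ v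
    rw [hρ, hρ, hρ, hρ, hρ, ← Submodule.Quotient.mk_sub, commute_ops]
  · intro w w' h v
    obtain ⟨v, rfl⟩ := Submodule.Quotient.mk_surjective _ v
    rw [hρ, hρ, hsp, hsp, Submodule.Quotient.mk_eq_zero]
    show _ ∈ JJ io b q
    rw [show li io b w * (li io b w' * v) = v * (li io b w * li io b w') by ring]
    exact Ideal.mul_mem_left _ _ (Ideal.subset_span (Or.inl ⟨w, w', h, rfl⟩))
  · intro w w' w'' v
    obtain ⟨v, rfl⟩ := Submodule.Quotient.mk_surjective _ v
    rw [hρ, hρ, hρ, hsp, hsp, hsp, Submodule.Quotient.mk_eq_zero]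
    show _ ∈ JJ io b q
    rw [show li io b w * (li io b w' * (li io b w'' * v)) =
      v * (li io b w * li io b w' * li io b w'') by ring]
    exact Ideal.mul_mem_left _ _ (Ideal.subset_span (Or.inr ⟨w, w', w'', rfl⟩))
  · intro w w' h
    let Θ : MvPolynomial ((Module.Basis.ofVectorSpaceIndex F3 W ⊕ Fin 3) ⊕ J2) F3 →ₐ[F3] KB q :=
      aeval (Sum.elim (Sum.elim (fun j => KB.inW q (bW j)) ![1, 0, 1]) (fun _ => 0))
    have hΘl : ∀ w, Θ (li io b w) = KB.inW q w := by
      have h1 : Θ.toLinearMap.comp (li io b) = KB.inW q := by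
        apply bW.ext
        intro j
        show Θ (li io b (bW j)) = _
        rw [hlb]
        simp [Θ]
      intro w
      exact LinearMap.congr_fun h1 w
    have hΘJ : ∀ p ∈ JJ io b q, Θ p = 0 := by
      intro p hp
      have h1 : JJ io b q ≤ RingHom.ker Θ.toRingHom := by
        rw [JJ, Ideal.span_le]
        rintro p (⟨w, w', h, rfl⟩ | ⟨w, w', w'', rfl⟩)
        · show Θ _ = 0
          rw [map_mul, hΘl, hΘl, KB.inW_mul_zero q h]
        · show Θ _ = 0
          rw [map_mul, map_mul, hΘl, hΘl, hΘl, KB.inW_mul3]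
      exact h1 hp
    have hle : ∀ i j : (Module.Basis.ofVectorSpaceIndex F3 W ⊕ Fin 3) ⊕ J2,
        r i < r j → i ≤ j := fun i j hij => (rankOrder_lt r hij).le
    set ic : (Module.Basis.ofVectorSpaceIndex F3 W ⊕ Fin 3) ⊕ J2 := Sum.inl (Sum.inr 0) with hic
    set id' : (Module.Basis.ofVectorSpaceIndex F3 W ⊕ Fin 3) ⊕ J2 := Sum.inl (Sum.inr 1) with hid
    set ia : (Module.Basis.ofVectorSpaceIndex F3 W ⊕ Fin 3) ⊕ J2 := Sum.inl (Sum.inr 2) with hia
    have gc : g 0 = b ic := (hb (Sum.inr 0)).symm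
    have gd : g 1 = b id' := (hb (Sum.inr 1)).symm
    have ga : g 2 = b ia := (hb (Sum.inr 2)).symm
    have hcd : ic ≤ id' := hle _ _ (by simp [hr, hic, hid])
    have hca : ic ≤ ia := hle _ _ (by simp [hr, hic, hia])
    have hda : id' ≤ ia := hle _ _ (by simp [hr, hid, hia])
    have s0 : ∀ i : (Module.Basis.ofVectorSpaceIndex F3 W ⊕ Fin 3) ⊕ J2,
        ∀ k ∈ (0 : _ →₀ ℕ).support, i ≤ k := by
      intro i k hk; simp at hk
    have ss : ∀ (i j : (Module.Basis.ofVectorSpaceIndex F3 W ⊕ Fin 3) ⊕ J2) (m : _ →₀ ℕ),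
        i ≤ j → (∀ k ∈ m.support, i ≤ k) → ∀ k ∈ (m + Finsupp.single j 1).support, i ≤ k := by
      intro i j m hij hm k hk
      rcases (supp_add m j k).1 hk with rfl | hk
      · exact hij
      · exact hm k hk
    have m0 : (1 : MvPolynomial ((Module.Basis.ofVectorSpaceIndex F3 W ⊕ Fin 3) ⊕ J2) F3) =
      mo F3 0 := rfl
    rw [gc, gd, ga]
    simp only [hρ, ← Submodule.Quotient.mk_sub]
    rw [m0, rho_le b (s0 ia), X_mul_mo, rho_le b (ss _ _ _ le_rfl (s0 ia)), X_mul_mo,
      rho_le b (ss _ _ _ le_rfl (ss _ _ _ le_rfl (s0 ia))), X_mul_mo,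
      rho_le b (ss _ _ _ hca (ss _ _ _ hca (ss _ _ _ hca (s0 ic)))), X_mul_mo,
      rho_le b (ss _ _ _ hda (s0 id')), X_mul_mo, map_sub,
      rho_le b (ss _ _ _ le_rfl (ss _ _ _ hca (ss _ _ _ hca (ss _ _ _ hca (s0 ic))))),
      rho_le b (ss _ _ _ hcd (ss _ _ _ hca (s0 ic))), hsp, hsp]
    intro h0
    rw [Submodule.Quotient.mk_eq_zero] at h0
    have h1 := hΘJ _ h0
    simp only [← X_mul_mo, ← m0, map_mul, map_sub, hΘl, map_one] at h1
    have h2 : Θ (X ic) = 1 := by simp [Θ, hic]
    have h3 : Θ (X id') = 0 := by simp [Θ, hid]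
    have h4 : Θ (X ia) = 1 := by simp [Θ, hia]
    rw [h2, h3, h4] at h1
    apply KB.inW_mul_ne q h
    rw [← h1]
    ring

end Run7.h11.N
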