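import Pool.Agent.Run7.h11.N.Top

set_option autoImplicit false

/-!
Polynomials in three scalars: the chain rule and the vanishing of the functional.
-/

namespace Run7.h11.N

open Run7.h11.Q MvPolynomial

/-- polynomials in three scalars -/
abbrev PP := MvPolynomial (Fin 3) F3

/-- evaluation -/
noncomputable def evt (t : Fin 3 → RR) : PP →ₐ[F3] RR := MvPolynomial.aeval t

lemma evt_X (t : Fin 3 → RR) (i : Fin 3) : evt t (X i) = t i := by
  rw [evt, aeval_X]

lemma eu_algebraMap (w : Ex →+ F3) (c : F3) : eu w (algebraMap F3 RR c) = 0 := by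
  have h : (algebraMap F3 RR c) = AddMonoidAlgebra.single 0 c := rfl
  rw [h, eu_single, map_zero, zero_mul, AddMonoidAlgebra.single_zero]

lemma chain (w : Ex →+ F3) (t : Fin 3 → RR) (f : PP) : eu w (evt t f) =
    evt t (pderiv 0 f) * eu w (t 0) + evt t (pderiv 1 f) * eu w (t 1)
      + evt t (pderiv 2 f) * eu w (t 2) := by
  induction f using MvPolynomial.induction_on with
  | C a =>
    have : evt t (C a) = algebraMap F3 RR a := by
      rw [evt, algHom_C]
    rw [this, eu_algebraMap]
    simp only [pderiv_C, map_zero]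
    ring
  | add p q hp hq => simp only [map_add, hp, hq]; ring
  | mul_X p n hp =>
    rw [map_mul, evt_X, eu_mul, hp]
    simp only [pderiv_mul, map_add, map_mul, evt_X]
    fin_cases n
    · have h0 : pderiv (0 : Fin 3) (X (0 : Fin 3) : PP) = 1 := pderiv_X_self _
      have h1 : pderiv (1 : Fin 3) (X (0 : Fin 3) : PP) = 0 := pderiv_X_of_ne (by decide)
      have h2 : pderiv (2 : Fin 3) (X (0 : Fin 3) : PP) = 0 := pderiv_X_of_ne (by decide)
      simp only [Fin.zero_eta, h0, h1, h2, map_one, map_zero]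
      ring
    · have h0 : pderiv (0 : Fin 3) (X (1 : Fin 3) : PP) = 0 := pderiv_X_of_ne (by decide)
      have h1 : pderiv (1 : Fin 3) (X (1 : Fin 3) : PP) = 1 := pderiv_X_self _
      have h2 : pderiv (2 : Fin 3) (X (1 : Fin 3) : PP) = 0 := pderiv_X_of_ne (by decide)
      simp only [Fin.mk_one, h0, h1, h2, map_one, map_zero]
      ring
    · have h0 : pderiv (0 : Fin 3) (X (2 : Fin 3) : PP) = 0 := pderiv_X_of_ne (by decide)
      have h1 : pderiv (1 : Fin 3) (X (2 : Fin 3) : PP) = 0 := pderiv_X_of_ne (by decide)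
      have h2 : pderiv (2 : Fin 3) (X (2 : Fin 3) : PP) = 1 := pderiv_X_self _
      simp only [Fin.reduceFinMk, h0, h1, h2, map_one, map_zero]
      ring

/-- the Jacobian of polynomials -/
noncomputable def Jt (f g h : PP) : PP :=
  pderiv 0 f * (pderiv 1 g * pderiv 2 h - pderiv 2 g * pderiv 1 h)
    + pderiv 1 f * (pderiv 2 g * pderiv 0 h - pderiv 0 g * pderiv 2 h)
    + pderiv 2 f * (pderiv 0 g * pderiv 1 h - pderiv 1 g * pderiv 0 h)

lemma J_evt (t : Fin 3 → RR) (f g h : PP) : J (evt t f) (evt t g) (evt t h) =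
    evt t (Jt f g h) * J (t 0) (t 1) (t 2) := by
  simp only [J, Jt, chain, map_add, map_sub, map_mul]
  ring

lemma van (h : PP) : ∃ k0 : ℕ, ∀ k, k0 ≤ k → ∀ t : Fin 3 → RR,
    lam k (evt t h * J (t 0) (t 1) (t 2)) = 0 := by
  induction h using MvPolynomial.induction_on' with
  | monomial u a =>
    refine ⟨u 0 + 1, fun k hk t => ?_⟩
    have h1 : evt t (monomial u a) = a • (t 0 ^ u 0 * t 1 ^ u 1 * t 2 ^ u 2) := by
      rw [evt, aeval_monomial, Finsupp.prod_fintype _ _ (by simp), Fin.prod_univ_three,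
        Algebra.smul_def]
    rw [h1, smul_mul_assoc, lam_smul, lam_van, mul_zero]
    intro hd
    have h2 := Nat.le_of_dvd (Nat.succ_pos _) hd
    have h3 : k < 3 ^ k := Nat.lt_pow_self (by norm_num)
    omega
  | add p q hp hq =>
    obtain ⟨k1, h1⟩ := hp
    obtain ⟨k2, h2⟩ := hq
    refine ⟨max k1 k2, fun k hk t => ?_⟩
    rw [map_add, add_mul, map_add, h1 k (le_trans (le_max_left _ _) hk) t,
      h2 k (le_trans (le_max_right _ _) hk) t, add_zero]

end Run7.h11.N
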