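import Pool.Agent.Run7.h11.N.Unif
import Pool.Agent.Run7.h11.N.Mod

set_option autoImplicit false

/-!
The consequences of the identity in two variables which fail in the models.
-/

namespace Run7.h11.N

open Run7.h11.Q

section Words

variable {A B : Type} [LieRing A] [LieRing B]

/-- iterated multiplication by the scalar `x · y` -/
def itw (x y : A) : ℕ → A → A
  | 0, P => P
  | n + 1, P => -⁅⁅itw x y n P, x⁆, y⁆

/-- a multiple of `[a, b]` -/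
def Pw (n : ℕ) (a b : A) : A := itw a a (n + 1) (itw a b n (itw b b (n + 1) ⁅a, b⁆))

/-- the special consequence -/
def Eu (n : ℕ) (a b : A) : A :=
  ⁅⁅⁅⁅a, b⁆, Tw a b a b a a⁆, Tw a b a b b b⁆, Tw ⁅Pw n a b, a⁆ b a b a a⁆

/-- the values of the variables -/
def xU (n : ℕ) (a b : A) : ℕ → A
  | 0 => ⁅a, b⁆
  | 1 => a
  | 2 => b
  | 3 => a
  | 4 => b
  | 5 => a
  | 6 => a
  | 7 => a
  | 8 => b
  | 9 => a
  | 10 => b
  | 11 => b
  | 12 => b
  | 13 => ⁅Pw n a b, a⁆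
  | 14 => b
  | 15 => a
  | 16 => b
  | 17 => a
  | 18 => a
  | _ => 0

lemma Ew_xU (n : ℕ) (a b : A) : Ew (xU n a b) = Eu n a b := rfl

variable [LieAlgebra F3 A] [LieAlgebra F3 B]

lemma itw_map (f : A →ₗ⁅F3⁆ B) (x y : A) (n : ℕ) (P : A) :
    f (itw x y n P) = itw (f x) (f y) n (f P) := by
  induction n with
  | zero => rfl
  | succ n ih => simp only [itw, map_neg, LieHom.map_lie, ih]

lemma Eu_map (f : A →ₗ⁅F3⁆ B) (n : ℕ) (a b : A) : f (Eu n a b) = Eu n (f a) (f b) := by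
  simp only [Eu, Tw_map, LieHom.map_lie, Pw, itw_map]

lemma three_smul_zero (x : A) : x + x + x = 0 := by
  have h3 : (3 : F3) • x = 0 := by
    rw [show (3 : F3) = 0 by decide, zero_smul]
  rw [show (3 : F3) = 1 + 1 + 1 by decide, add_smul, add_smul, one_smul] at h3
  exact h3

lemma Tw_special (a b : A) : Tw a b a b a a = ⁅⁅a, b⁆, ⁅a, ⁅a, ⁅a, b⁆⁆⁆⁆ := by
  have h1 : ⁅⁅a, ⁅a, b⁆⁆, a⁆ = - ⁅a, ⁅a, ⁅a, b⁆⁆⁆ := by rw [lie_skew]
  have h2 : ∀ x : A, x + x + x + x + -x + -x = x + x := by intro x; abel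
  have h3 : S6 a a a b = ⁅a, ⁅a, ⁅a, b⁆⁆⁆ + ⁅a, ⁅a, ⁅a, b⁆⁆⁆ := by
    rw [S6, h1, h2]
  have h4 : ⁅⁅a, ⁅a, ⁅a, b⁆⁆⁆, ⁅a, b⁆⁆ = - ⁅⁅a, b⁆, ⁅a, ⁅a, ⁅a, b⁆⁆⁆⁆ := by rw [lie_skew]
  rw [Tw, h3, lie_add, add_lie, h4]
  have h5 := three_smul_zero ⁅⁅a, b⁆, ⁅a, ⁅a, ⁅a, b⁆⁆⁆⁆
  calc _ = (⁅⁅a, b⁆, ⁅a, ⁅a, ⁅a, b⁆⁆⁆⁆ + ⁅⁅a, b⁆, ⁅a, ⁅a, ⁅a, b⁆⁆⁆⁆ +
      ⁅⁅a, b⁆, ⁅a, ⁅a, ⁅a, b⁆⁆⁆⁆) + ⁅⁅a, b⁆, ⁅a, ⁅a, ⁅a, b⁆⁆⁆⁆ := by abel
    _ = _ := by rw [h5, zero_add]

end Words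

lemma EE.h_neg (a : EE) : EE.h (-a) = - EE.h a := rfl

lemma cr_cr (P x y : V3) : cr (cr P x) y = dot P y • x - dot x y • P := by
  apply v3_ext <;> simp only [cr, dot, Prod.fst_sub, Prod.snd_sub, Prod.smul_fst, Prod.smul_snd,
    smul_eq_mul] <;> ring

lemma dot_smul (r : RR) (x y : V3) : dot (r • x) y = r * dot x y := by
  simp only [dot, Prod.smul_fst, Prod.smul_snd, smul_eq_mul]; ring

lemma dot_cr_left (x y : V3) : dot (cr x y) x = 0 := by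
  simp only [dot, cr]; ring

lemma dot_cr_right (x y : V3) : dot (cr x y) y = 0 := by
  simp only [dot, cr]; ring

lemma dot_cr_cr (x y : V3) : dot (cr x y) (cr x y) = dot x x * dot y y - dot x y * dot x y := by
  simp only [dot, cr]; ring

lemma h_itw (x y P : EE) (c : V3) (G : RR) (hP : EE.h P = G • c) (hy : dot c (EE.h y) = 0)
    (n : ℕ) : EE.h (itw x y n P) = (dot (EE.h x) (EE.h y) ^ n * G) • c := by
  induction n with
  | zero => rw [itw, pow_zero, one_mul, hP]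
  | succ n ih =>
    rw [itw, EE.h_neg, EE.h_br, EE.h_br, ih, cr_cr, dot_smul, hy, mul_zero, zero_smul, zero_sub,
      neg_neg, smul_smul]
    congr 1
    ring

lemma h_Pw (n : ℕ) (a b : EE) : EE.h (Pw n a b) =
    (dot (EE.h a) (EE.h a) ^ (n + 1) * (dot (EE.h a) (EE.h b) ^ n *
      (dot (EE.h b) (EE.h b) ^ (n + 1) * 1))) • cr (EE.h a) (EE.h b) := by
  rw [Pw]
  apply h_itw _ _ _ _ _ _ (dot_cr_left _ _)
  apply h_itw _ _ _ _ _ _ (dot_cr_right _ _)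
  apply h_itw _ _ _ _ _ _ (dot_cr_right _ _)
  rw [EE.h_br, one_smul]

/-- the variables -/
noncomputable def X1 : RR := AddMonoidAlgebra.single (1, 0, 0) 1
/-- the variables -/
noncomputable def Y1 : RR := AddMonoidAlgebra.single (0, 1, 0) 1
/-- the variables -/
noncomputable def Z1 : RR := AddMonoidAlgebra.single (0, 0, 1) 1

/-- first vector -/
noncomputable def ua : V3 := (1 - X1, 1 - X1, 1 + X1)
/-- second vector -/
noncomputable def ub : V3 := (Y1 + Z1, Y1 - Z1, - Y1)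

lemma daa : dot ua ua = X1 := by
  have h3 : (3 : RR) = 0 := three_eq
  simp only [dot, ua]
  linear_combination (1 - X1 + X1 ^ 2) * h3

lemma dab : dot ua ub = Y1 := by
  have h3 : (3 : RR) = 0 := three_eq
  simp only [dot, ua, ub]
  linear_combination (- X1 * Y1) * h3

lemma dbb : dot ub ub = - (Z1 * Z1) := by
  have h3 : (3 : RR) = 0 := three_eq
  simp only [dot, ub]
  linear_combination (Y1 ^ 2 + Z1 ^ 2) * h3

/-- the elements of the extension -/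
noncomputable def EA : EE := EE.mk ua 0
/-- the elements of the extension -/
noncomputable def EB : EE := EE.mk ub 0

/-- the three special elements -/
noncomputable def gg : Fin 3 → EE := ![⁅EA, EB⁆, ⁅EA, ⁅EA, ⁅EA, EB⁆⁆⁆, EA]

/-- a coefficient -/
noncomputable def cf (m : Ex) : RR →+ F3 :=
  linR (fun m' => if m' = m then AddMonoidHom.id F3 else 0)

lemma cf_single (m m' : Ex) (r : F3) : cf m (AddMonoidAlgebra.single m' r) =
    if m' = m then r else 0 := by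
  rw [cf, linR_single]
  split_ifs <;> simp

lemma cf_smul (m : Ex) (r : F3) (x : RR) : cf m (r • x) = r * cf m x :=
  ((cf m).toZModLinearMap 3).map_smul r x

lemma gg_li (w : WW) (c : Fin 3 → F3) (h : EE.io w = ∑ i, c i • gg i) : c = 0 := by
  have h1 := congrArg EE.h h
  rw [Fin.sum_univ_three, EE.h_io, EE.h_add, EE.h_add, EE.h_smul, EE.h_smul, EE.h_smul] at h1
  have g0 : EE.h (gg 0) = cr ua ub := rfl
  have g1 : EE.h (gg 1) = cr ua (cr ua (cr ua ub)) := rfl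
  have g2 : EE.h (gg 2) = ua := rfl
  rw [g0, g1, g2] at h1
  have h2 := congrArg (fun v : V3 => v.1) h1
  simp only [Prod.fst_add, Prod.smul_fst, Prod.fst_zero] at h2
  have h3 : (3 : RR) = 0 := three_eq
  have k0 : (cr ua ub).1 = AddMonoidAlgebra.single (0, 1, 0) 1 + AddMonoidAlgebra.single (0, 0, 1) 1
      + AddMonoidAlgebra.single (1, 0, 1) 1 := by
    have : (AddMonoidAlgebra.single (1, 0, 1) 1 : RR) = X1 * Z1 := by
      rw [X1, Z1, AddMonoidAlgebra.single_mul_single]; rfl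
    rw [this]
    show (cr ua ub).1 = Y1 + Z1 + X1 * Z1
    simp only [cr, ua, ub]
    linear_combination (- Y1) * h3
  have k1 : (cr ua (cr ua (cr ua ub))).1 = - (AddMonoidAlgebra.single (1, 1, 0) 1
      + AddMonoidAlgebra.single (1, 0, 1) 1 + AddMonoidAlgebra.single (2, 0, 1) 1) := by
    have e1 : (AddMonoidAlgebra.single (1, 0, 1) 1 : RR) = X1 * Z1 := by
      rw [X1, Z1, AddMonoidAlgebra.single_mul_single]; rfl
    have e2 : (AddMonoidAlgebra.single (1, 1, 0) 1 : RR) = X1 * Y1 := by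
      rw [X1, Y1, AddMonoidAlgebra.single_mul_single]; rfl
    have e3 : (AddMonoidAlgebra.single (2, 0, 1) 1 : RR) = X1 * X1 * Z1 := by
      rw [X1, Z1, AddMonoidAlgebra.single_mul_single, AddMonoidAlgebra.single_mul_single]; rfl
    rw [e1, e2, e3]
    have e4 : (cr ua (cr ua (cr ua ub))).1 = - (dot ua ua * (cr ua ub).1) := by
      simp only [cr, dot]; ring
    rw [e4, daa]
    simp only [cr, ua, ub]
    linear_combination (X1 * Y1) * h3
  have k2 : (ua).1 = AddMonoidAlgebra.single (0, 0, 0) 1 - AddMonoidAlgebra.single (1, 0, 0) 1 := rfl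
  rw [k0, k1, k2] at h2
  have c2 : c 2 = 0 := by
    have := congrArg (cf (0, 0, 0)) h2
    simp only [map_add, map_sub, map_neg, map_zero, cf_smul, cf_single] at this
    simpa using this.symm
  have c0 : c 0 = 0 := by
    have := congrArg (cf (0, 1, 0)) h2
    simp only [map_add, map_sub, map_neg, map_zero, cf_smul, cf_single] at this
    simpa using this.symm
  have c1 : c 1 = 0 := by
    have := congrArg (cf (1, 1, 0)) h2
    simp only [map_add, map_sub, map_neg, map_zero, cf_smul, cf_single] at this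
    simpa using this.symm
  funext i
  fin_cases i
  · exact c0
  · exact c1
  · exact c2

lemma mono (a b c : ℕ) : X1 ^ a * Y1 ^ b * (- (Z1 * Z1)) ^ c =
    AddMonoidAlgebra.single (a, b, 2 * c) ((-1) ^ c) := by
  have h1 : (- (Z1 * Z1) : RR) = AddMonoidAlgebra.single (0, 0, 2) (-1) := by
    rw [Z1, AddMonoidAlgebra.single_mul_single, ← AddMonoidAlgebra.single_neg]; rfl
  rw [h1, X1, Y1, AddMonoidAlgebra.single_pow, AddMonoidAlgebra.single_pow,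
    AddMonoidAlgebra.single_pow, AddMonoidAlgebra.single_mul_single,
    AddMonoidAlgebra.single_mul_single]
  congr 1
  · simp only [Prod.smul_mk, smul_eq_mul, mul_one, mul_zero, Prod.mk_add_mk, add_zero, zero_add,
      Prod.mk.injEq, true_and]
    ring
  · simp

lemma J_XYZ : J X1 Y1 (- (Z1 * Z1)) = - (X1 * Y1 * (- (Z1 * Z1))) := by
  have h1 := mono 1 1 1
  have h2 : (- (Z1 * Z1) : RR) = AddMonoidAlgebra.single (0, 0, 2) (-1) := by
    rw [Z1, AddMonoidAlgebra.single_mul_single, ← AddMonoidAlgebra.single_neg]; rfl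
  rw [pow_one, pow_one, pow_one, pow_one] at h1
  rw [h1, h2, X1, Y1, J_single, ← AddMonoidAlgebra.single_neg]
  congr 1

/-- the special value is nonzero -/
lemma lam_ne (k : ℕ) : lam (k + 1) (- (Y1 * (X1 ^ (3 ^ (k + 1) - 3 + 1) *
    (Y1 ^ (3 ^ (k + 1) - 3) * ((- (Z1 * Z1)) ^ (3 ^ (k + 1) - 3 + 1) * 1)))) *
      (X1 * (- (Z1 * Z1)) - Y1 * Y1) *
      J X1 (X1 * (- (Z1 * Z1)) - Y1 * Y1) (- (Z1 * Z1))) ≠ 0 := by
  have h3 : (3 : RR) = 0 := three_eq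
  have hJ : J X1 (X1 * (- (Z1 * Z1)) - Y1 * Y1) (- (Z1 * Z1)) = Y1 * J X1 Y1 (- (Z1 * Z1)) := by
    set T := (- (Z1 * Z1) : RR)
    simp only [J, eu_mul, map_sub]
    linear_combination (-Y1 * (e0 X1 * (e1 Y1 * e2 T - e2 Y1 * e1 T) +
      e1 X1 * (e2 Y1 * e0 T - e0 Y1 * e2 T) + e2 X1 * (e0 Y1 * e1 T - e1 Y1 * e0 T))) * h3
  rw [hJ, J_XYZ]
  obtain ⟨n, hn⟩ : ∃ n, 3 ^ (k + 1) = n + 3 := by
    have : 3 ≤ 3 ^ (k + 1) := by
      calc 3 = 3 ^ 1 := (pow_one 3).symm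
        _ ≤ 3 ^ (k + 1) := Nat.pow_le_pow_right (by norm_num) (by omega)
    exact ⟨3 ^ (k + 1) - 3, by omega⟩
  have hn' : 3 ^ (k + 1) - 3 = n := by omega
  rw [hn']
  have e : - (Y1 * (X1 ^ (n + 1) * (Y1 ^ n * ((- (Z1 * Z1)) ^ (n + 1) * 1)))) *
      (X1 * (- (Z1 * Z1)) - Y1 * Y1) * (Y1 * - (X1 * Y1 * (- (Z1 * Z1)))) =
      X1 ^ (n + 3) * Y1 ^ (n + 3) * (- (Z1 * Z1)) ^ (n + 3)
        - X1 ^ (n + 2) * Y1 ^ (n + 5) * (- (Z1 * Z1)) ^ (n + 2) := by ring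
  rw [e, mono, mono, map_sub, lam_single, lam_single, hn]
  rw [if_pos rfl, if_neg (by simp only [Prod.mk.injEq]; omega), sub_zero]
  exact pow_ne_zero _ (by decide)

/-- a model in which a consequence in two variables fails -/
theorem exists_bad (k : ℕ) : ∃ (M : Md k) (a b : SD M.R), Eu (3 ^ (k + 1) - 3) a b ≠ 0 := by
  obtain ⟨V, i1, i2, ρ, u, hcomm, z2, z3, z4⟩ :=
    exists_mod EE.io EE.io_inj EE.io_central gg gg_li (qq k)
  refine ⟨⟨V, ⟨ρ, hcomm⟩, z2⟩, ?_⟩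
  set R : Rp EE V := ⟨ρ, hcomm⟩ with hR
  refine ⟨SD.mk R 0 EA, SD.mk R u EB, ?_⟩
  set a : SD R := SD.mk R 0 EA with ha
  set b : SD R := SD.mk R u EB with hb
  have la : SD.l R a = EA := rfl
  have lb : SD.l R b = EB := rfl
  have hP : SD.l R (Pw (3 ^ (k + 1) - 3) a b) = Pw (3 ^ (k + 1) - 3) EA EB := by
    have h : ∀ (x y : SD R) (n : ℕ) (P : SD R),
        SD.l R (itw x y n P) = itw (SD.l R x) (SD.l R y) n (SD.l R P) := by
      intro x y n P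
      induction n with
      | zero => rfl
      | succ n ih =>
        simp only [itw]
        rw [← ih]
        rfl
    rw [Pw, h, h, h]; rfl
  have h1 := l_Tw R a b a b a a
  have h2 := l_Tw R a b a b b b
  have h3 := l_Tw R ⁅Pw (3 ^ (k + 1) - 3) a b, a⁆ b a b a a
  rw [Tw_EE] at h1 h2 h3
  show ⁅⁅⁅⁅a, b⁆, Tw a b a b a a⁆, Tw a b a b b b⁆,
    Tw ⁅Pw (3 ^ (k + 1) - 3) a b, a⁆ b a b a a⁆ ≠ 0
  rw [Ew_SD R _ _ _ _ _ _ _ h1 h2 h3]
  intro h0
  have h5 := congrArg (SD.v R) h0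
  rw [SD.v_mk, SD.v_zero, map_sub, map_sub] at h5
  have h6 : ∀ w w' w'' v, R.ρ (EE.io w) (R.ρ (EE.io w') (R.ρ (EE.io w'') v)) = 0 := z3
  rw [h6, sub_zero] at h5
  have h7 : R.ρ (SD.l R ⁅a, b⁆) (SD.v R (Tw a b a b a a)) =
      ρ (gg 0) (ρ (gg 0) (ρ (gg 2) (ρ (gg 2) (ρ (gg 2) u))) - ρ (gg 1) (ρ (gg 2) u)) := by
    rw [Tw_special]
    simp only [SD.v_br, SD.l_br, la, lb]
    have va : SD.v R a = 0 := rfl
    have vb : SD.v R b = u := rfl
    simp only [va, vb, map_zero, sub_zero]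
    rfl
  rw [h7] at h5
  refine z4 _ _ ?_ h5
  rw [map_neg, map_neg, LinearMap.neg_apply, neg_neg, qq_cls, Qf_fm, SD.l_br, hP, la, lb]
  have ea : EE.h EA = ua := rfl
  have eb : EE.h EB = ub := rfl
  rw [EE.h_br, h_Pw, ea, eb, cr_cr, dot_smul, dot_cr_right, mul_zero, zero_smul, zero_sub,
    dot_cr_cr, daa, dab, dbb]
  have h8 : dot (-(Y1 • (X1 ^ (3 ^ (k + 1) - 3 + 1) * (Y1 ^ (3 ^ (k + 1) - 3) *
      ((-(Z1 * Z1)) ^ (3 ^ (k + 1) - 3 + 1) * 1))) • cr ua ub)) (cr ua ub) =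
      - (Y1 * (X1 ^ (3 ^ (k + 1) - 3 + 1) * (Y1 ^ (3 ^ (k + 1) - 3) *
      ((-(Z1 * Z1)) ^ (3 ^ (k + 1) - 3 + 1) * 1)))) * (X1 * (- (Z1 * Z1)) - Y1 * Y1) := by
    rw [smul_smul, ← neg_smul, dot_smul, dot_cr_cr, daa, dab, dbb]
  rw [h8]
  exact lam_ne k

end Run7.h11.N
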