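import Pool.Agent.Run7.h11.Q.Ring

set_option autoImplicit false

/-!
Top degree logarithmic forms in three variables in characteristic three, and the iterated
Cartier operator on them.
-/

namespace Run7.h11.N

open Run7.h11.Q

/-- the degree in the first variable -/
def w0 : Ex →+ F3 where
  toFun m := (m.1 : F3)
  map_zero' := by simp
  map_add' := by intro x y; simp

/-- the degree in the second variable -/
def w1 : Ex →+ F3 where
  toFun m := (m.2.1 : F3)
  map_zero' := by simp
  map_add' := by intro x y; simp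

/-- the degree in the third variable -/
def w2 : Ex →+ F3 where
  toFun m := (m.2.2 : F3)
  map_zero' := by simp
  map_add' := by intro x y; simp

/-- the Euler derivations -/
noncomputable abbrev e0 : RR →+ RR := eu w0
/-- the Euler derivations -/
noncomputable abbrev e1 : RR →+ RR := eu w1
/-- the Euler derivations -/
noncomputable abbrev e2 : RR →+ RR := eu w2

lemma c10 (x : RR) : e1 (e0 x) = e0 (e1 x) := eu_comm _ _ _
lemma c20 (x : RR) : e2 (e0 x) = e0 (e2 x) := eu_comm _ _ _
lemma c21 (x : RR) : e2 (e1 x) = e1 (e2 x) := eu_comm _ _ _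

/-- the Jacobian -/
noncomputable def J (f g h : RR) : RR :=
  e0 f * (e1 g * e2 h - e2 g * e1 h) + e1 f * (e2 g * e0 h - e0 g * e2 h)
    + e2 f * (e0 g * e1 h - e1 g * e0 h)

lemma J_div (f g h : RR) : J f g h =
    e0 (f * (e1 g * e2 h - e2 g * e1 h)) + e1 (f * (e2 g * e0 h - e0 g * e2 h))
    + e2 (f * (e0 g * e1 h - e1 g * e0 h)) := by
  simp only [J, eu_mul, map_sub, c10, c20, c21]
  ring

lemma J_add (f f' g h : RR) : J (f + f') g h = J f g h + J f' g h := by
  simp only [J, map_add]; ring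

lemma J_zero (g h : RR) : J 0 g h = 0 := by
  simp only [J, map_zero]; ring

lemma J_swap (f g h : RR) : J g f h = - J f g h := by
  simp only [J]; ring

lemma J_rot (f g h : RR) : J g h f = J f g h := by
  simp only [J]; ring

lemma J_mul (f f' g h : RR) : J (f * f') g h = f * J f' g h + f' * J f g h := by
  simp only [J, eu_mul]; ring

lemma J_self (f h : RR) : J f f h = 0 := by
  simp only [J]; ring

lemma J_self' (f h : RR) : J f h f = 0 := by
  simp only [J]; ring

lemma J_pow (n : ℕ) (f g h : RR) : J (f ^ n) g h = n * f ^ (n - 1) * J f g h := by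
  induction n with
  | zero =>
    have : (e0 (1 : RR)) = 0 ∧ (e1 (1 : RR)) = 0 ∧ (e2 (1 : RR)) = 0 := by
      refine ⟨?_, ?_, ?_⟩ <;>
      · rw [show (1 : RR) = AddMonoidAlgebra.single 0 1 from rfl, eu_single, map_zero, zero_mul,
          AddMonoidAlgebra.single_zero]
    simp only [pow_zero, J, this]
    simp
  | succ n ih =>
    rw [pow_succ, J_mul, ih]
    rcases n with _ | n
    · simp
    · simp only [Nat.add_sub_cancel]
      push_cast
      ring

/-- the Cartier operator -/
noncomputable def Ca : RR →+ RR :=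
  linR (fun m => if m.1 % 3 = 0 ∧ m.2.1 % 3 = 0 ∧ m.2.2 % 3 = 0 then
    AddMonoidAlgebra.singleAddHom (m.1 / 3, m.2.1 / 3, m.2.2 / 3) else 0)

lemma Ca_single (m : Ex) (r : F3) : Ca (AddMonoidAlgebra.single m r) =
    if m.1 % 3 = 0 ∧ m.2.1 % 3 = 0 ∧ m.2.2 % 3 = 0 then
      AddMonoidAlgebra.single (m.1 / 3, m.2.1 / 3, m.2.2 / 3) r else 0 := by
  rw [Ca, linR_single]
  split_ifs <;> simp

lemma Ca_eu {w : Ex →+ F3} (hw : ∀ m : Ex, m.1 % 3 = 0 ∧ m.2.1 % 3 = 0 ∧ m.2.2 % 3 = 0 → w m = 0)
    (x : RR) : Ca (eu w x) = 0 := by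
  induction x using AddMonoidAlgebra.induction_linear with
  | zero => simp
  | add x x' hx hx' => simp only [map_add, hx, hx', add_zero]
  | single m r =>
    rw [eu_single, Ca_single]
    split_ifs with h
    · rw [hw m h, zero_mul, AddMonoidAlgebra.single_zero]
    · rfl

lemma Ca_e0 (x : RR) : Ca (e0 x) = 0 :=
  Ca_eu (fun m h => by
    show ((m.1 : ℕ) : F3) = 0
    rw [natCast_mod3, h.1]; rfl) x

lemma Ca_e1 (x : RR) : Ca (e1 x) = 0 :=
  Ca_eu (fun m h => by
    show ((m.2.1 : ℕ) : F3) = 0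
    rw [natCast_mod3, h.2.1]; rfl) x

lemma Ca_e2 (x : RR) : Ca (e2 x) = 0 :=
  Ca_eu (fun m h => by
    show ((m.2.2 : ℕ) : F3) = 0
    rw [natCast_mod3, h.2.2]; rfl) x

lemma Ca_J (f g h : RR) : Ca (J f g h) = 0 := by
  rw [J_div, map_add, map_add, Ca_e0, Ca_e1, Ca_e2]; simp

lemma Ca_cube (g x : RR) : Ca (g ^ 3 * x) = g * Ca x := by
  induction g using AddMonoidAlgebra.induction_linear with
  | zero => simp
  | add g g' hg hg' => rw [add_cube, add_mul, map_add, hg, hg', add_mul]
  | single m r =>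
    induction x using AddMonoidAlgebra.induction_linear with
    | zero => simp
    | add x x' hx hx' => rw [mul_add, map_add, hx, hx', map_add, mul_add]
    | single m' r' =>
      obtain ⟨a, b, c⟩ := m
      obtain ⟨a', b', c'⟩ := m'
      rw [AddMonoidAlgebra.single_pow, f3_pow3, AddMonoidAlgebra.single_mul_single, Ca_single,
        Ca_single]
      have h1 : (3 • ((a, b, c) : Ex) + (a', b', c')) = (3 * a + a', 3 * b + b', 3 * c + c') := by
        simp
      rw [h1]
      simp only
      have h2 : ((3 * a + a') % 3 = 0 ∧ (3 * b + b') % 3 = 0 ∧ (3 * c + c') % 3 = 0) ↔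
          (a' % 3 = 0 ∧ b' % 3 = 0 ∧ c' % 3 = 0) := by omega
      by_cases h : a' % 3 = 0 ∧ b' % 3 = 0 ∧ c' % 3 = 0
      · rw [if_pos h, if_pos (h2.2 h), AddMonoidAlgebra.single_mul_single]
        congr 1
        simp only [Prod.mk_add_mk, Prod.mk.injEq]
        omega
      · rw [if_neg h, if_neg (fun h' => h (h2.1 h')), mul_zero]

/-- the inverse Cartier form -/
noncomputable def Ph (f g h : RR) : RR := Ca ((f * g * h) ^ 2 * J f g h) - J f g h

lemma Ph_add (f f' g h : RR) : Ph (f + f') g h = Ph f g h + Ph f' g h := by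
  have h1 : ((f + f') * g * h) ^ 2 * J (f + f') g h =
      (f * g * h) ^ 2 * J f g h + (f' * g * h) ^ 2 * J f' g h +
        J ((f * f * f' + f * f' * f') * (g * g * (h * h))) g h := by
    simp only [J_add, J_mul, J_self, J_self']
    ring
  rw [Ph, Ph, Ph, h1, map_add, map_add, Ca_J, J_add]
  ring

lemma Ph_swap (f g h : RR) : Ph g f h = - Ph f g h := by
  rw [Ph, Ph, J_swap, show (g * f * h) ^ 2 * - J f g h = - ((f * g * h) ^ 2 * J f g h) by ring,
    map_neg]
  ring

lemma Ph_rot (f g h : RR) : Ph g h f = Ph f g h := by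
  rw [Ph, Ph, J_rot, show (g * h * f) ^ 2 = (f * g * h) ^ 2 by ring]

lemma J_single (m m' m'' : Ex) (r r' r'' : F3) :
    J (AddMonoidAlgebra.single m r) (AddMonoidAlgebra.single m' r')
      (AddMonoidAlgebra.single m'' r'') =
    AddMonoidAlgebra.single (m + m' + m'') ((w0 m * (w1 m' * w2 m'' - w2 m' * w1 m'')
      + w1 m * (w2 m' * w0 m'' - w0 m' * w2 m'')
      + w2 m * (w0 m' * w1 m'' - w1 m' * w0 m'')) * (r * r' * r'')) := by
  simp only [J, eu_single, AddMonoidAlgebra.single_mul_single, ← AddMonoidAlgebra.single_add,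
    ← AddMonoidAlgebra.single_sub, add_assoc]
  congr 1
  ring

lemma Ph_single (m m' m'' : Ex) (r r' r'' : F3) :
    Ph (AddMonoidAlgebra.single m r) (AddMonoidAlgebra.single m' r')
      (AddMonoidAlgebra.single m'' r'') = 0 := by
  obtain ⟨a, b, c⟩ := m
  obtain ⟨a', b', c'⟩ := m'
  obtain ⟨a'', b'', c''⟩ := m''
  rw [Ph, J_single]
  set D := (w0 (a, b, c) * (w1 (a', b', c') * w2 (a'', b'', c'') - w2 (a', b', c') * w1 (a'', b'', c''))
      + w1 (a, b, c) * (w2 (a', b', c') * w0 (a'', b'', c'') - w0 (a', b', c') * w2 (a'', b'', c''))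
      + w2 (a, b, c) * (w0 (a', b', c') * w1 (a'', b'', c'') - w1 (a', b', c') * w0 (a'', b'', c'')))
    with hD
  rw [AddMonoidAlgebra.single_mul_single, AddMonoidAlgebra.single_mul_single,
    AddMonoidAlgebra.single_pow, AddMonoidAlgebra.single_mul_single, Ca_single]
  have h1 : (2 • ((a, b, c) + (a', b', c') + (a'', b'', c'')) +
      ((a, b, c) + (a', b', c') + (a'', b'', c'')) : Ex) =
      (3 * (a + a' + a''), 3 * (b + b' + b''), 3 * (c + c' + c'')) := by
    simp only [Prod.mk_add_mk, Prod.smul_mk, smul_eq_mul, Prod.mk.injEq]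
    omega
  rw [h1]
  have h2 : (3 * (a + a' + a'')) % 3 = 0 ∧ (3 * (b + b' + b'')) % 3 = 0 ∧
      (3 * (c + c' + c'')) % 3 = 0 := by omega
  rw [if_pos h2]
  simp only
  rw [Nat.mul_div_cancel_left _ (by norm_num), Nat.mul_div_cancel_left _ (by norm_num),
    Nat.mul_div_cancel_left _ (by norm_num)]
  rw [show ((a, b, c) + (a', b', c') + (a'', b'', c'') : Ex) =
    (a + a' + a'', b + b' + b'', c + c' + c'') from rfl, ← AddMonoidAlgebra.single_sub]
  have h3 : (r * r' * r'') ^ 2 * (D * (r * r' * r'')) - D * (r * r' * r'') = 0 := by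
    have := f3_pow3 (r * r' * r'')
    linear_combination D * this
  rw [h3, AddMonoidAlgebra.single_zero]

lemma Ph_eq (f g h : RR) : Ph f g h = 0 := by
  have z : ∀ g h : RR, Ph 0 g h = 0 := by
    intro g h
    have := Ph_add 0 0 g h
    rw [add_zero] at this
    exact left_eq_add.mp this
  induction f using AddMonoidAlgebra.induction_linear with
  | zero => exact z _ _
  | add f f' hf hf' => rw [Ph_add, hf, hf', add_zero]
  | single m r =>
    induction g using AddMonoidAlgebra.induction_linear with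
    | zero => rw [← Ph_rot, z]
    | add g g' hg hg' => rw [Ph_swap, Ph_add, Ph_swap, hg, Ph_swap, hg']; simp
    | single m' r' =>
      induction h using AddMonoidAlgebra.induction_linear with
      | zero => rw [← Ph_rot, ← Ph_rot, z]
      | add h h' hh hh' => rw [← Ph_rot, ← Ph_rot, Ph_add, Ph_rot, Ph_rot, hh, Ph_rot, Ph_rot, hh', add_zero]
      | single m'' r'' => exact Ph_single _ _ _ _ _ _

lemma Ca_top (f g h : RR) : Ca ((f * g * h) ^ 2 * J f g h) = J f g h := by
  have := Ph_eq f g h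
  rw [Ph] at this
  exact sub_eq_zero.1 this

/-- the functional -/
noncomputable def lam (k : ℕ) : RR →+ F3 :=
  linR (fun m => if m = (3 ^ k, 3 ^ k, 2 * 3 ^ k) then AddMonoidHom.id F3 else 0)

lemma lam_single (k : ℕ) (m : Ex) (r : F3) : lam k (AddMonoidAlgebra.single m r) =
    if m = (3 ^ k, 3 ^ k, 2 * 3 ^ k) then r else 0 := by
  rw [lam, linR_single]
  split_ifs <;> simp

lemma lam_succ (k : ℕ) (x : RR) : lam (k + 1) x = lam k (Ca x) := by
  induction x using AddMonoidAlgebra.induction_linear with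
  | zero => simp
  | add x x' hx hx' => simp only [map_add, hx, hx']
  | single m r =>
    obtain ⟨a, b, c⟩ := m
    rw [lam_single, Ca_single]
    simp only
    by_cases h : a % 3 = 0 ∧ b % 3 = 0 ∧ c % 3 = 0
    · rw [if_pos h, lam_single]
      congr 1
      simp only [Prod.mk.injEq, eq_iff_iff]
      rw [pow_succ]
      omega
    · rw [if_neg h, map_zero, if_neg]
      intro h'
      apply h
      simp only [Prod.mk.injEq] at h'
      rw [pow_succ] at h'
      omega

lemma lam_J (k : ℕ) (f g h : RR) : lam (k + 1) (J f g h) = 0 := by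
  rw [lam_succ, Ca_J, map_zero]

lemma lam_e0 (k : ℕ) (x : RR) : lam (k + 1) (e0 x) = 0 := by
  rw [lam_succ, Ca_e0, map_zero]

lemma lam_e1 (k : ℕ) (x : RR) : lam (k + 1) (e1 x) = 0 := by
  rw [lam_succ, Ca_e1, map_zero]

lemma lam_e2 (k : ℕ) (x : RR) : lam (k + 1) (e2 x) = 0 := by
  rw [lam_succ, Ca_e2, map_zero]

lemma natCast_unit {n : ℕ} (h : ¬ n % 3 = 0) : ∃ u : F3, u * (n : F3) = 1 := by
  rw [natCast_mod3]
  have h2 : n % 3 = 1 ∨ n % 3 = 2 := by omega
  rcases h2 with h2 | h2 <;> rw [h2]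
  · exact ⟨1, by decide⟩
  · exact ⟨2, by decide⟩

lemma lam_smul (k : ℕ) (r : F3) (x : RR) : lam k (r • x) = r * lam k x :=
  ((lam k).toZModLinearMap 3).map_smul r x

/-- exactness in the first variable -/
lemma lam_ex0 (k : ℕ) (a b c : ℕ) (h : ¬ (a + 1) % 3 = 0) (f g t : RR) :
    lam (k + 1) (f ^ a * g ^ b * t ^ c * J f g t) = 0 := by
  obtain ⟨u, hu⟩ := natCast_unit h
  have h1 : J (f ^ (a + 1) * (g ^ b * t ^ c)) g t =
      ((a + 1 : ℕ) : RR) * (f ^ a * g ^ b * t ^ c * J f g t) := by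
    simp only [J_mul, J_pow, J_self, J_self', Nat.add_sub_cancel]
    ring
  have h3 : ((a + 1 : ℕ) : RR) * (f ^ a * g ^ b * t ^ c * J f g t) =
      ((a + 1 : ℕ) : F3) • (f ^ a * g ^ b * t ^ c * J f g t) := by
    rw [← nsmul_eq_mul, Nat.cast_smul_eq_nsmul F3]
  have h4 := lam_J k (f ^ (a + 1) * (g ^ b * t ^ c)) g t
  rw [h1, h3, lam_smul] at h4
  calc lam (k + 1) (f ^ a * g ^ b * t ^ c * J f g t)
      = (u * ((a + 1 : ℕ) : F3)) * lam (k + 1) (f ^ a * g ^ b * t ^ c * J f g t) := by
        rw [hu, one_mul]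
    _ = 0 := by rw [mul_assoc, h4, mul_zero]

/-- the vanishing of the iterated Cartier operator on forms of small degree -/
lemma lam_van (k : ℕ) : ∀ (a b c : ℕ), ¬ 3 ^ k ∣ a + 1 → ∀ f g t : RR,
    lam k (f ^ a * g ^ b * t ^ c * J f g t) = 0 := by
  induction k with
  | zero => intro a b c h; exact absurd (by rw [pow_zero]; exact one_dvd _) h
  | succ k ih =>
    intro a b c h f g t
    by_cases ha : (a + 1) % 3 = 0
    · by_cases hb : (b + 1) % 3 = 0
      · by_cases hc : (c + 1) % 3 = 0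
        · obtain ⟨a', ha'⟩ : ∃ a', a = 3 * a' + 2 := ⟨a / 3, by omega⟩
          obtain ⟨b', hb'⟩ : ∃ b', b = 3 * b' + 2 := ⟨b / 3, by omega⟩
          obtain ⟨c', hc'⟩ : ∃ c', c = 3 * c' + 2 := ⟨c / 3, by omega⟩
          subst ha' hb' hc'
          have h1 : f ^ (3 * a' + 2) * g ^ (3 * b' + 2) * t ^ (3 * c' + 2) * J f g t =
              (f ^ a' * g ^ b' * t ^ c') ^ 3 * ((f * g * t) ^ 2 * J f g t) := by ring
          rw [h1, lam_succ, Ca_cube, Ca_top]
          apply ih
          intro hd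
          apply h
          rw [pow_succ, show 3 * a' + 2 + 1 = (a' + 1) * 3 by ring]
          exact Nat.mul_dvd_mul_right hd 3
        · have h1 : f ^ a * g ^ b * t ^ c * J f g t = t ^ c * f ^ a * g ^ b * J t f g := by
            rw [J_rot t f g |>.symm]; ring
          rw [h1]
          exact lam_ex0 k c a b hc t f g
      · have h1 : f ^ a * g ^ b * t ^ c * J f g t = g ^ b * t ^ c * f ^ a * J g t f := by
          rw [J_rot f g t]; ring
        rw [h1]
        exact lam_ex0 k b c a hb g t f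
    · exact lam_ex0 k a b c ha f g t

end Run7.h11.N
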