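import Pool.Agent.Run7.h11.N.Word

set_option autoImplicit false

/-!
The values of words in two variables in the cross product algebra, and the vanishing of the
consequences in two variables.
-/

namespace Run7.h11.N

open Run7.h11.Q

/-- the scalars of a pair -/
noncomputable def tt (a b : V3) : Fin 3 → RR := ![dot a a, dot a b, dot b b]

lemma tt0 (a b : V3) : tt a b 0 = dot a a := rfl
lemma tt1 (a b : V3) : tt a b 1 = dot a b := rfl
lemma tt2 (a b : V3) : tt a b 2 = dot b b := rfl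

/-- the value with given coefficients -/
noncomputable def comb (a b : V3) (P0 P1 P2 : PP) : V3 :=
  evt (tt a b) P0 • a + evt (tt a b) P1 • b + evt (tt a b) P2 • cr a b

/-- a vector component -/
structure HP (A : Type) [LieRing A] [LieAlgebra F3 A] where
  f : A →ₗ[F3] V3
  br : ∀ x y, f ⁅x, y⁆ = cr (f x) (f y)

/-- uniform values -/
def Unif (w : FreeLieAlgebra F3 (Fin 2)) : Prop :=
  ∃ P0 P1 P2 : PP, ∀ (A : Type) [LieRing A] [LieAlgebra F3 A] (p : HP A) (φ : Fin 2 → A),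
    p.f (FreeLieAlgebra.lift F3 φ w) = comb (p.f (φ 0)) (p.f (φ 1)) P0 P1 P2

lemma comb_add (a b : V3) (P0 P1 P2 Q0 Q1 Q2 : PP) :
    comb a b P0 P1 P2 + comb a b Q0 Q1 Q2 = comb a b (P0 + Q0) (P1 + Q1) (P2 + Q2) := by
  simp only [comb, map_add, add_smul]; abel

lemma comb_smul (r : F3) (a b : V3) (P0 P1 P2 : PP) :
    r • comb a b P0 P1 P2 = comb a b (r • P0) (r • P1) (r • P2) := by
  simp only [comb, map_smul, smul_add, smul_assoc]

lemma cr_comb (a b : V3) (P0 P1 P2 Q0 Q1 Q2 : PP) :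
    cr (comb a b P0 P1 P2) (comb a b Q0 Q1 Q2) = comb a b
      ((P0 * Q2 - P2 * Q0) * MvPolynomial.X 1 + (P1 * Q2 - P2 * Q1) * MvPolynomial.X 2)
      (- (P0 * Q2 - P2 * Q0) * MvPolynomial.X 0 - (P1 * Q2 - P2 * Q1) * MvPolynomial.X 1)
      (P0 * Q1 - P1 * Q0) := by
  simp only [comb, map_add, map_sub, map_mul, map_neg, evt_X, tt0, tt1, tt2]
  apply v3_ext <;>
    simp only [cr, dot, Prod.fst_add, Prod.snd_add, Prod.smul_fst, Prod.smul_snd,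
      smul_eq_mul] <;> ring

lemma dot_comb (a b : V3) (P0 P1 P2 Q0 Q1 Q2 : PP) :
    dot (comb a b P0 P1 P2) (comb a b Q0 Q1 Q2) = evt (tt a b)
      (P0 * Q0 * MvPolynomial.X 0 + (P0 * Q1 + P1 * Q0) * MvPolynomial.X 1
        + P1 * Q1 * MvPolynomial.X 2
        + P2 * Q2 * (MvPolynomial.X 0 * MvPolynomial.X 2 - MvPolynomial.X 1 * MvPolynomial.X 1)) := by
  simp only [comb, map_add, map_sub, map_mul, evt_X, tt0, tt1, tt2]
  simp only [cr, dot, Prod.fst_add, Prod.snd_add, Prod.smul_fst, Prod.smul_snd, smul_eq_mul]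
  ring

/-- the subalgebra of uniform words -/
def US : LieSubalgebra F3 (FreeLieAlgebra F3 (Fin 2)) where
  carrier := {w | Unif w}
  add_mem' := by
    rintro x y ⟨P0, P1, P2, hP⟩ ⟨Q0, Q1, Q2, hQ⟩
    refine ⟨P0 + Q0, P1 + Q1, P2 + Q2, ?_⟩
    intro A _ _ p φ
    rw [map_add, map_add, hP A p φ, hQ A p φ, comb_add]
  zero_mem' := by
    refine ⟨0, 0, 0, ?_⟩
    intro A _ _ p φ
    rw [map_zero, map_zero]
    simp [comb]
  smul_mem' := by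
    rintro r x ⟨P0, P1, P2, hP⟩
    refine ⟨r • P0, r • P1, r • P2, ?_⟩
    intro A _ _ p φ
    rw [map_smul, map_smul, hP A p φ, comb_smul]
  lie_mem' := by
    rintro x y ⟨P0, P1, P2, hP⟩ ⟨Q0, Q1, Q2, hQ⟩
    refine ⟨((P0 * Q2 - P2 * Q0) * MvPolynomial.X 1 + (P1 * Q2 - P2 * Q1) * MvPolynomial.X 2),
      (- (P0 * Q2 - P2 * Q0) * MvPolynomial.X 0 - (P1 * Q2 - P2 * Q1) * MvPolynomial.X 1),
      (P0 * Q1 - P1 * Q0), ?_⟩
    intro A _ _ p φ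
    rw [LieHom.map_lie, p.br, hP A p φ, hQ A p φ]
    exact cr_comb _ _ _ _ _ _ _ _

lemma mem_US (x : FreeLieAlgebra F3 (Fin 2)) : x ∈ US := by
  have hgen : ∀ i : Fin 2, FreeLieAlgebra.of F3 i ∈ US := by
    intro i
    fin_cases i
    · refine ⟨1, 0, 0, ?_⟩
      intro A _ _ p φ
      simp [comb]
    · refine ⟨0, 1, 0, ?_⟩
      intro A _ _ p φ
      simp [comb]
  let f : FreeLieAlgebra F3 (Fin 2) →ₗ⁅F3⁆ US :=
    FreeLieAlgebra.lift F3 (fun i => (⟨FreeLieAlgebra.of F3 i, hgen i⟩ : US))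
  have h : US.incl.comp f = LieHom.id := by
    apply FreeLieAlgebra.hom_ext
    intro i
    simp [f]
  have h2 := LieHom.congr_fun h x
  rw [LieHom.comp_apply, LieHom.id_apply] at h2
  rw [← h2]
  exact (f x).2

lemma unif_all (x : FreeLieAlgebra F3 (Fin 2)) : Unif x := mem_US x

/-- the dot products are uniform polynomials in the three scalars -/
lemma unif_dot (x y : FreeLieAlgebra F3 (Fin 2)) : ∃ s : PP, ∀ (A : Type) [LieRing A]
    [LieAlgebra F3 A] (p : HP A) (φ : Fin 2 → A),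
    dot (p.f (FreeLieAlgebra.lift F3 φ x)) (p.f (FreeLieAlgebra.lift F3 φ y)) =
      evt (tt (p.f (φ 0)) (p.f (φ 1))) s := by
  obtain ⟨P0, P1, P2, hP⟩ := unif_all x
  obtain ⟨Q0, Q1, Q2, hQ⟩ := unif_all y
  refine ⟨(P0 * Q0 * MvPolynomial.X 0 + (P0 * Q1 + P1 * Q0) * MvPolynomial.X 1
        + P1 * Q1 * MvPolynomial.X 2
        + P2 * Q2 * (MvPolynomial.X 0 * MvPolynomial.X 2
          - MvPolynomial.X 1 * MvPolynomial.X 1)), ?_⟩
  intro A _ _ p φ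
  rw [hP A p φ, hQ A p φ]
  exact dot_comb _ _ _ _ _ _ _ _

/-- the pairing of two uniform forms vanishes -/
lemma van_form (s G s' G' : PP) : ∃ k0 : ℕ, ∀ k, k0 ≤ k → ∀ t : Fin 3 → RR,
    Qf k (fm (evt t s) (evt t G)) (fm (evt t s') (evt t G')) = 0 := by
  obtain ⟨k0, h0⟩ := van (s * Jt G s' G')
  refine ⟨k0, fun k hk t => ?_⟩
  rw [Qf_fm, J_evt, ← mul_assoc, ← map_mul]
  exact h0 (k + 1) (by omega) t

/-- the vector component in a semidirect product -/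
noncomputable def hpSD {V : Type} [AddCommGroup V] [Module F3 V] (R : Rp EE V) : HP (SD R) where
  f := { toFun := fun a => EE.h (SD.l R a)
         map_add' := fun _ _ => rfl
         map_smul' := fun _ _ => rfl }
  br _ _ := rfl

/-- the representations for which the centre acts through the ring of the form -/
structure Md (k : ℕ) where
  V : Type
  [ac : AddCommGroup V]
  [mo : Module F3 V]
  R : Rp EE V
  z2 : ∀ w w', (qq k).B w w' = 0 → ∀ v, R.ρ (EE.io w) (R.ρ (EE.io w') v) = 0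

attribute [instance] Md.ac Md.mo

/-- consequences of the identity in two variables hold in the late models -/
lemma van_Ew (ψ : ℕ → FreeLieAlgebra F3 (Fin 2)) : ∃ k0 : ℕ, ∀ k, k0 ≤ k → ∀ (M : Md k)
    (φ : Fin 2 → SD M.R), FreeLieAlgebra.lift F3 φ (Ew ψ) = 0 := by
  obtain ⟨s2, hs2⟩ := unif_dot ⁅ψ 7, ψ 8⁆ ⁅ψ 9, ψ 10⁆
  obtain ⟨G2, hG2⟩ := unif_dot (ψ 11) (ψ 12)
  obtain ⟨s3, hs3⟩ := unif_dot ⁅ψ 13, ψ 14⁆ ⁅ψ 15, ψ 16⁆
  obtain ⟨G3, hG3⟩ := unif_dot (ψ 17) (ψ 18)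
  obtain ⟨k0, hk0⟩ := van_form s3 G3 s2 G2
  refine ⟨k0, fun k hk M φ => ?_⟩
  have hs2' := hs2 _ (hpSD M.R) φ
  have hs3' := hs3 _ (hpSD M.R) φ
  have hG2' := hG2 _ (hpSD M.R) φ
  have hG3' := hG3 _ (hpSD M.R) φ
  rw [Ew_map, Ew]
  have h1 := l_Tw M.R (FreeLieAlgebra.lift F3 φ (ψ 1)) (FreeLieAlgebra.lift F3 φ (ψ 2))
    (FreeLieAlgebra.lift F3 φ (ψ 3)) (FreeLieAlgebra.lift F3 φ (ψ 4))
    (FreeLieAlgebra.lift F3 φ (ψ 5)) (FreeLieAlgebra.lift F3 φ (ψ 6))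
  have h2 := l_Tw M.R (FreeLieAlgebra.lift F3 φ (ψ 7)) (FreeLieAlgebra.lift F3 φ (ψ 8))
    (FreeLieAlgebra.lift F3 φ (ψ 9)) (FreeLieAlgebra.lift F3 φ (ψ 10))
    (FreeLieAlgebra.lift F3 φ (ψ 11)) (FreeLieAlgebra.lift F3 φ (ψ 12))
  have h3 := l_Tw M.R (FreeLieAlgebra.lift F3 φ (ψ 13)) (FreeLieAlgebra.lift F3 φ (ψ 14))
    (FreeLieAlgebra.lift F3 φ (ψ 15)) (FreeLieAlgebra.lift F3 φ (ψ 16))
    (FreeLieAlgebra.lift F3 φ (ψ 17)) (FreeLieAlgebra.lift F3 φ (ψ 18))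
  rw [Tw_EE] at h1 h2 h3
  rw [Ew_SD M.R _ _ _ _ _ _ _ h1 h2 h3]
  have e2 : dot (cr (EE.h (SD.l M.R (FreeLieAlgebra.lift F3 φ (ψ 7))))
      (EE.h (SD.l M.R (FreeLieAlgebra.lift F3 φ (ψ 8)))))
      (cr (EE.h (SD.l M.R (FreeLieAlgebra.lift F3 φ (ψ 9))))
      (EE.h (SD.l M.R (FreeLieAlgebra.lift F3 φ (ψ 10))))) =
      evt (tt ((hpSD M.R).f (φ 0)) ((hpSD M.R).f (φ 1))) s2 := by
    rw [← hs2', LieHom.map_lie, LieHom.map_lie]; rfl
  have e3 : dot (cr (EE.h (SD.l M.R (FreeLieAlgebra.lift F3 φ (ψ 13))))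
      (EE.h (SD.l M.R (FreeLieAlgebra.lift F3 φ (ψ 14)))))
      (cr (EE.h (SD.l M.R (FreeLieAlgebra.lift F3 φ (ψ 15))))
      (EE.h (SD.l M.R (FreeLieAlgebra.lift F3 φ (ψ 16))))) =
      evt (tt ((hpSD M.R).f (φ 0)) ((hpSD M.R).f (φ 1))) s3 := by
    rw [← hs3', LieHom.map_lie, LieHom.map_lie]; rfl
  have e2' : dot (EE.h (SD.l M.R (FreeLieAlgebra.lift F3 φ (ψ 11))))
      (EE.h (SD.l M.R (FreeLieAlgebra.lift F3 φ (ψ 12)))) =
      evt (tt ((hpSD M.R).f (φ 0)) ((hpSD M.R).f (φ 1))) G2 := hG2'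
  have e3' : dot (EE.h (SD.l M.R (FreeLieAlgebra.lift F3 φ (ψ 17))))
      (EE.h (SD.l M.R (FreeLieAlgebra.lift F3 φ (ψ 18)))) =
      evt (tt ((hpSD M.R).f (φ 0)) ((hpSD M.R).f (φ 1))) G3 := hG3'
  rw [e2, e3, e2', e3']
  have hz : (qq k).B (- cls (fm (evt (tt ((hpSD M.R).f (φ 0)) ((hpSD M.R).f (φ 1))) s3)
      (evt (tt ((hpSD M.R).f (φ 0)) ((hpSD M.R).f (φ 1))) G3)))
      (- cls (fm (evt (tt ((hpSD M.R).f (φ 0)) ((hpSD M.R).f (φ 1))) s2)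
      (evt (tt ((hpSD M.R).f (φ 0)) ((hpSD M.R).f (φ 1))) G2))) = 0 := by
    rw [map_neg, map_neg, LinearMap.neg_apply, qq_cls, hk0 k hk]
    simp
  rw [M.z2 _ _ hz]
  rfl

end Run7.h11.N
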