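import Pool.Agent.Run7.h11.N.Alg
import Pool.Agent.Run7.h11.N.Poly

set_option autoImplicit false

/-!
The identity, its values in semidirect products.
-/

namespace Run7.h11.N

open Run7.h11.Q

/-- a representation -/
structure Rp (L V : Type) [LieRing L] [LieAlgebra F3 L] [AddCommGroup V] [Module F3 V] where
  ρ : L →ₗ[F3] Module.End F3 V
  comm : ∀ x y v, ρ ⁅x, y⁆ v = ρ x (ρ y v) - ρ y (ρ x v)

/-- the semidirect product -/
def SD {L V : Type} [LieRing L] [LieAlgebra F3 L] [AddCommGroup V] [Module F3 V]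
    (_R : Rp L V) : Type := V × L

namespace SD

variable {L V : Type} [LieRing L] [LieAlgebra F3 L] [AddCommGroup V] [Module F3 V] (R : Rp L V)

instance : AddCommGroup (SD R) := inferInstanceAs (AddCommGroup (V × L))
instance : Module F3 (SD R) := inferInstanceAs (Module F3 (V × L))

/-- constructor -/
def mk (v : V) (x : L) : SD R := (v, x)
/-- component -/
def v (a : SD R) : V := a.1
/-- component -/
def l (a : SD R) : L := a.2

@[simp] lemma v_mk (a : V) (x : L) : v R (mk R a x) = a := rfl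
@[simp] lemma l_mk (a : V) (x : L) : l R (mk R a x) = x := rfl
@[simp] lemma v_add (a b : SD R) : v R (a + b) = v R a + v R b := rfl
@[simp] lemma l_add (a b : SD R) : l R (a + b) = l R a + l R b := rfl
@[simp] lemma v_sub (a b : SD R) : v R (a - b) = v R a - v R b := rfl
@[simp] lemma l_sub (a b : SD R) : l R (a - b) = l R a - l R b := rfl
@[simp] lemma v_zero : v R 0 = 0 := rfl
@[simp] lemma l_zero : l R 0 = 0 := rfl
@[simp] lemma v_smul (r : F3) (b : SD R) : v R (r • b) = r • v R b := rfl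
@[simp] lemma l_smul (r : F3) (b : SD R) : l R (r • b) = r • l R b := rfl

lemma ext' {a b : SD R} (h1 : v R a = v R b) (h2 : l R a = l R b) : a = b := Prod.ext h1 h2

instance : Bracket (SD R) (SD R) :=
  ⟨fun a b => mk R (R.ρ (l R a) (v R b) - R.ρ (l R b) (v R a)) ⁅l R a, l R b⁆⟩

@[simp] lemma v_br (a b : SD R) :
    v R ⁅a, b⁆ = R.ρ (l R a) (v R b) - R.ρ (l R b) (v R a) := rfl
@[simp] lemma l_br (a b : SD R) : l R ⁅a, b⁆ = ⁅l R a, l R b⁆ := rfl

instance : LieRing (SD R) where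
  add_lie a b e := by
    apply ext'
    · simp only [v_br, v_add, l_add, map_add, LinearMap.add_apply]; abel
    · simp only [l_br, l_add, add_lie]
  lie_add a b e := by
    apply ext'
    · simp only [v_br, v_add, l_add, map_add, LinearMap.add_apply]; abel
    · simp only [l_br, l_add, lie_add]
  lie_self a := by
    apply ext'
    · simp only [v_br, sub_self, v_zero]
    · simp only [l_br, lie_self, l_zero]
  leibniz_lie a b e := by
    apply ext'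
    · simp only [v_br, v_add, l_br, map_sub, R.comm]; abel
    · simp only [l_br, l_add]; exact leibniz_lie _ _ _

instance : LieAlgebra F3 (SD R) where
  lie_smul r a b := by
    apply ext'
    · simp only [v_br, v_smul, l_smul, map_smul, LinearMap.smul_apply, smul_sub]
    · simp only [l_br, l_smul, lie_smul]

end SD

section Words

variable {A : Type} [LieRing A]

/-- the multiple of `[v, y]` by `b · c` -/
def S6 (b c v y : A) : A :=
  ⁅b, ⁅c, ⁅v, y⁆⁆⁆ + ⁅v, ⁅c, ⁅b, y⁆⁆⁆ + ⁅c, ⁅b, ⁅v, y⁆⁆⁆ + ⁅v, ⁅b, ⁅c, y⁆⁆⁆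
    + ⁅⁅v, ⁅c, y⁆⁆, b⁆ + ⁅⁅v, ⁅b, y⁆⁆, c⁆

/-- the central word -/
def Tw (b1 b2 c1 c2 g1 g2 : A) : A :=
  ⁅⁅b1, b2⁆, S6 g1 g2 c1 c2⁆ - ⁅S6 g1 g2 b1 b2, ⁅c1, c2⁆⁆

/-- the identity -/
def Ew (x : ℕ → A) : A :=
  ⁅⁅⁅x 0, Tw (x 1) (x 2) (x 3) (x 4) (x 5) (x 6)⁆,
    Tw (x 7) (x 8) (x 9) (x 10) (x 11) (x 12)⁆,
    Tw (x 13) (x 14) (x 15) (x 16) (x 17) (x 18)⁆

variable {B : Type} [LieRing B] [LieAlgebra F3 A] [LieAlgebra F3 B]

lemma Tw_map (f : A →ₗ⁅F3⁆ B) (b1 b2 c1 c2 g1 g2 : A) :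
    f (Tw b1 b2 c1 c2 g1 g2) = Tw (f b1) (f b2) (f c1) (f c2) (f g1) (f g2) := by
  simp only [Tw, S6, map_sub, map_add, LieHom.map_lie]

lemma Ew_map (f : A →ₗ⁅F3⁆ B) (x : ℕ → A) : f (Ew x) = Ew (fun i => f (x i)) := by
  simp only [Ew, Tw_map, LieHom.map_lie]

end Words

lemma cr_six (b c v y : V3) :
    cr b (cr c (cr v y)) + cr v (cr c (cr b y)) + cr c (cr b (cr v y)) + cr v (cr b (cr c y))
      + cr (cr v (cr c y)) b + cr (cr v (cr b y)) c = dot b c • cr v y := by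
  have h3 : (3 : RR) = 0 := three_eq
  apply v3_ext
  · simp only [Prod.fst_add, cr, dot, Prod.smul_fst, smul_eq_mul]
    linear_combination (-(b.1 * c.1 + b.2.1 * c.2.1 + b.2.2 * c.2.2) *
      (v.2.1 * y.2.2 - v.2.2 * y.2.1)) * h3
  · simp only [Prod.fst_add, Prod.snd_add, cr, dot, Prod.smul_fst, Prod.smul_snd, smul_eq_mul]
    linear_combination (-(b.1 * c.1 + b.2.1 * c.2.1 + b.2.2 * c.2.2) *
      (v.2.2 * y.1 - v.1 * y.2.2)) * h3
  · simp only [Prod.snd_add, cr, dot, Prod.smul_snd, smul_eq_mul]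
    linear_combination (-(b.1 * c.1 + b.2.1 * c.2.1 + b.2.2 * c.2.2) *
      (v.1 * y.2.1 - v.2.1 * y.1)) * h3

lemma h_S6 (b c v y : EE) :
    EE.h (S6 b c v y) = dot (EE.h b) (EE.h c) • cr (EE.h v) (EE.h y) := by
  simp only [S6, EE.h_add, EE.h_br]
  exact cr_six _ _ _ _

lemma cr_smul_comm (G : RR) (a b : V3) : cr a (G • b) - cr (G • a) b = 0 := by
  apply v3_ext <;>
    simp only [cr, Prod.fst_sub, Prod.snd_sub, Prod.smul_fst, Prod.smul_snd, smul_eq_mul,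
      Prod.fst_zero, Prod.snd_zero] <;> ring

lemma om_smul_comm (G : RR) (a b : V3) : om a (G • b) - om (G • a) b = fm (dot a b) G := by
  apply v3_ext <;>
    simp only [om, fm, dot, Prod.fst_sub, Prod.snd_sub, Prod.smul_fst, Prod.smul_snd,
      smul_eq_mul, eu_mul] <;> ring

lemma EE.h_sub (a b : EE) : EE.h (a - b) = EE.h a - EE.h b := rfl
lemma EE.c_sub (a b : EE) : EE.c (a - b) = EE.c a - EE.c b := rfl

lemma h_Tw (b1 b2 c1 c2 g1 g2 : EE) : EE.h (Tw b1 b2 c1 c2 g1 g2) = 0 := by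
  simp only [Tw, EE.h_sub, EE.h_br, h_S6]
  exact cr_smul_comm _ _ _

lemma c_Tw (b1 b2 c1 c2 g1 g2 : EE) : EE.c (Tw b1 b2 c1 c2 g1 g2) =
    - cls (fm (dot (cr (EE.h b1) (EE.h b2)) (cr (EE.h c1) (EE.h c2)))
      (dot (EE.h g1) (EE.h g2))) := by
  simp only [Tw, EE.c_sub, EE.c_br, h_S6, EE.h_br]
  rw [← om_smul_comm, map_sub]
  abel

lemma Tw_EE (b1 b2 c1 c2 g1 g2 : EE) : Tw b1 b2 c1 c2 g1 g2 =
    EE.io (- cls (fm (dot (cr (EE.h b1) (EE.h b2)) (cr (EE.h c1) (EE.h c2)))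
      (dot (EE.h g1) (EE.h g2)))) := by
  rw [EE.eq_io (h_Tw b1 b2 c1 c2 g1 g2), c_Tw]

lemma l_S6 {L V : Type} [LieRing L] [LieAlgebra F3 L] [AddCommGroup V] [Module F3 V]
    (R : Rp L V) (b c v y : SD R) :
    SD.l R (S6 b c v y) = S6 (SD.l R b) (SD.l R c) (SD.l R v) (SD.l R y) := by
  simp only [S6, SD.l_add, SD.l_br]

lemma l_Tw {L V : Type} [LieRing L] [LieAlgebra F3 L] [AddCommGroup V] [Module F3 V]
    (R : Rp L V) (b1 b2 c1 c2 g1 g2 : SD R) :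
    SD.l R (Tw b1 b2 c1 c2 g1 g2) = Tw (SD.l R b1) (SD.l R b2) (SD.l R c1) (SD.l R c2)
      (SD.l R g1) (SD.l R g2) := by
  simp only [Tw, SD.l_sub, SD.l_br, l_S6]

/-- the value of the identity -/
lemma Ew_SD {V : Type} [AddCommGroup V] [Module F3 V] (R : Rp EE V) (y T1 T2 T3 : SD R)
    (w1 w2 w3 : WW) (h1 : SD.l R T1 = EE.io w1) (h2 : SD.l R T2 = EE.io w2)
    (h3 : SD.l R T3 = EE.io w3) :
    ⁅⁅⁅y, T1⁆, T2⁆, T3⁆ = SD.mk R (R.ρ (EE.io w3) (R.ρ (EE.io w2)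
      (R.ρ (SD.l R y) (SD.v R T1) - R.ρ (EE.io w1) (SD.v R y)))) 0 := by
  have e1 : ∀ (w : WW) (x : EE), ⁅x, EE.io w⁆ = 0 := by
    intro w x
    rw [← lie_skew, EE.io_central, neg_zero]
  apply SD.ext'
  · simp only [SD.v_br, SD.l_br, h1, h2, h3, e1, zero_lie, map_zero, LinearMap.zero_apply,
      zero_sub, map_neg, neg_neg, SD.v_mk]
  · simp only [SD.l_br, h1, h2, h3, e1, SD.l_mk]

end Run7.h11.N
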